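import Mathlib
import Pool.Agent.H76.CR.Defs
import Pool.Agent.H6.Win.Hfun
import Pool.Agent.H6.Unc.LocAn

/-!
# HlocV: local factorisation of `zetaPole` around `1 + a + it`, uniform in `a → 0`

Near-copy of `loc_log_an` (`H6/Unc/LocAn.lean`) and of `HlocU` (`H52/Unc/HlocU.lean`), but the
constant must be uniform in `a` and `r`.  Let `c = pt a t`.
(1) `closedBall c ((1+η) r) ⊆ {Re ≥ 1/2}` because `(1+η) r ≤ a + 1/2`, and there
`‖zetaPole z‖ ≤ 2 (1+‖z‖)^2 ≤ 2 (2A+4)^2 (|t|+2)^2` (`norm_zetaPole_le`), while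
`‖zetaPole c‖ = ‖c-1‖ ‖ζ(c)‖ ≥ a / ζ(1+a) ≥ a^2/(1+a)` (`norm_inv_riemannZeta_le`, and
`∑ n^(-(1+a)) ≤ 1 + 1/a`).  So `‖zetaPole z‖ ≤ exp(D Λ) ‖zetaPole c‖`, `D = D(A)`.
(2) scaling: `f w = zetaPole (c + r w)`, centre `0`, radii `1 < 1+η/2 < 1+η` in `loc_log_an`
(constant depending on `η` only), then `deriv f w / f w = r (deriv zetaPole / zetaPole)(c + r w)` and
`analyticOrderNatAt f w = zord (c + r w)` (order of a composition with an affine map).
If the order under the affine map is unpleasant: repeat the proof of `loc_log_an` with the radii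
`r, (1+η/2) r, (1+η) r`; all constants there depend only on the ratios.
About 180 lines.
-/

set_option autoImplicit false

open Complex Metric Filter Topology Set

namespace Pool.Agent.H76.SV

open Pool.Agent.H6 Pool.Agent.H6.Win Pool.Agent.H76.CR

/-- size of `∑ n^(-(1+a))` -/
private lemma tsum_le_hv {A a : ℝ} (ha : 0 < a) (haA : a ≤ A) :
    ∑' n : ℕ, 1 / (n : ℝ) ^ (1 + a) ≤ 2 * (2 + A) ^ 2 / a := by
  have h5 : riemannZeta ((1 + a : ℝ) : ℂ) = ((∑' n : ℕ, 1 / (n : ℝ) ^ (1 + a) : ℝ) : ℂ) := by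
    rw [zeta_eq_tsum_one_div_nat_cpow (by rw [ofReal_re]; linarith), ofReal_tsum]
    congr 1
    funext n
    rw [ofReal_div, ofReal_one, ofReal_cpow (Nat.cast_nonneg n), ofReal_natCast]
  have h4 : (∑' n : ℕ, 1 / (n : ℝ) ^ (1 + a)) = ‖riemannZeta ((1 + a : ℝ) : ℂ)‖ := by
    rw [h5, norm_real, Real.norm_of_nonneg (tsum_nonneg fun n => by positivity)]
  have h7 := norm_zetaPole_le (s := ((1 + a : ℝ) : ℂ)) (by rw [ofReal_re]; linarith)
  have h8 : zetaPole ((1 + a : ℝ) : ℂ) =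
      (((1 + a : ℝ) : ℂ) - 1) * riemannZeta ((1 + a : ℝ) : ℂ) := by
    rw [zetaPole_of_ne]
    intro h
    have : (1 + a : ℝ) = 1 := by exact_mod_cast h
    linarith
  rw [h8, norm_mul] at h7
  have h9 : ‖((1 + a : ℝ) : ℂ) - 1‖ = a := by
    rw [← ofReal_one, ← ofReal_sub, norm_real, Real.norm_of_nonneg (by linarith)]
    ring
  have h10 : ‖((1 + a : ℝ) : ℂ)‖ = 1 + a := by
    rw [norm_real, Real.norm_of_nonneg (by linarith)]
  rw [h9, h10] at h7
  rw [h4, le_div_iff₀ ha]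
  have h11 : (1 + (1 + a)) ^ 2 ≤ (2 + A) ^ 2 := by
    apply pow_le_pow_left₀ (by linarith) (by linarith)
  nlinarith

/-- size of `zetaPole` compared with its value at `1 + a + it`, uniform in `a`. -/
private lemma ratio_hv {A : ℝ} {a R t : ℝ} (ha : 0 < a) (haA : a ≤ A) (hR : R ≤ a + 1 / 2) :
    ∀ z ∈ closedBall (pt a t) R,
    ‖zetaPole z‖ ≤ 4 * (A + 2) ^ 4 * (|t| + 2) ^ 2 * (1 / a) ^ 2 * ‖zetaPole (pt a t)‖ := by
  intro z hz
  set K0 : ℝ := ∑' n : ℕ, 1 / (n : ℝ) ^ (1 + a) with hK0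
  have hK00 : 0 ≤ K0 := tsum_nonneg fun n => by positivity
  have hK1 : K0 ≤ 2 * (2 + A) ^ 2 / a := tsum_le_hv ha haA
  set c : ℂ := pt a t with hc
  have hcre : c.re = 1 + a := by rw [hc, pt]; simp
  have hcim : c.im = t := by rw [hc, pt]; simp
  rw [mem_closedBall, dist_eq_norm] at hz
  have hre : 1 / 2 ≤ z.re := by
    have h1 := (Complex.abs_re_le_norm (z - c)).trans hz
    rw [Complex.sub_re, hcre, abs_le] at h1
    linarith [h1.1]
  have h1 := norm_zetaPole_le hre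
  have ht := abs_nonneg t
  have hcn : ‖c‖ ≤ 1 + a + |t| := by
    have h2 := Complex.norm_le_abs_re_add_abs_im c
    rw [hcre, hcim, abs_of_pos (by linarith : (0:ℝ) < 1 + a)] at h2
    exact h2
  have hz2 : ‖z‖ ≤ |t| + 2 * a + 3 / 2 := by
    calc ‖z‖ = ‖(z - c) + c‖ := by ring_nf
      _ ≤ ‖z - c‖ + ‖c‖ := norm_add_le _ _
      _ ≤ |t| + 2 * a + 3 / 2 := by linarith
  have h2 : ‖zetaPole z‖ ≤ 2 * ((A + 2) ^ 2 * (|t| + 2) ^ 2) := by
    refine h1.trans ?_
    have h7 := norm_nonneg z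
    have h8 : 1 + ‖z‖ ≤ (A + 2) * (|t| + 2) := by nlinarith
    have h9 : (1 + ‖z‖) ^ 2 ≤ ((A + 2) * (|t| + 2)) ^ 2 := by gcongr
    rw [mul_pow] at h9
    linarith
  have h3 := norm_inv_riemannZeta_le (s := c) (x := 1 + a) (by linarith) (by rw [hcre])
  have hcne : c ≠ 1 := by
    intro h; rw [h] at hcre; simp at hcre; linarith
  have hζ : riemannZeta c ≠ 0 := riemannZeta_ne_zero_of_one_le_re (by rw [hcre]; linarith)
  have h4 : zetaPole c = (c - 1) * riemannZeta c := by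
    unfold zetaPole
    rw [Function.update_of_ne hcne]
  have h5 : a ≤ ‖c - 1‖ := by
    have := Complex.abs_re_le_norm (c - 1)
    rw [Complex.sub_re, hcre, Complex.one_re] at this
    have h6 : |1 + a - 1| = a := by rw [add_sub_cancel_left, abs_of_pos ha]
    rw [h6] at this
    exact this
  have h6 : 1 ≤ K0 / a * ‖zetaPole c‖ := by
    rw [h4, norm_mul]
    rw [norm_inv] at h3
    have hpos : 0 < ‖riemannZeta c‖ := norm_pos_iff.2 hζ
    have h7 : 1 ≤ K0 * ‖riemannZeta c‖ := by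
      rw [inv_le_iff_one_le_mul₀ hpos] at h3
      exact h3
    have h8 : K0 * ‖riemannZeta c‖ = a * (K0 / a * ‖riemannZeta c‖) := by
      field_simp
    have h9 : 0 ≤ K0 / a * ‖riemannZeta c‖ := by positivity
    calc (1:ℝ) ≤ a * (K0 / a * ‖riemannZeta c‖) := by rw [← h8]; exact h7
      _ ≤ ‖c - 1‖ * (K0 / a * ‖riemannZeta c‖) := mul_le_mul_of_nonneg_right h5 h9
      _ = _ := by ring
  have h10 : K0 / a ≤ 2 * (2 + A) ^ 2 * (1 / a) ^ 2 := by
    rw [div_le_iff₀ ha]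
    calc K0 ≤ 2 * (2 + A) ^ 2 / a := hK1
      _ = 2 * (2 + A) ^ 2 * (1 / a) ^ 2 * a := by field_simp
  have hA : 0 < A := lt_of_lt_of_le ha haA
  calc ‖zetaPole z‖ ≤ 2 * ((A + 2) ^ 2 * (|t| + 2) ^ 2) := h2
    _ = 2 * ((A + 2) ^ 2 * (|t| + 2) ^ 2) * 1 := by ring
    _ ≤ 2 * ((A + 2) ^ 2 * (|t| + 2) ^ 2) * (K0 / a * ‖zetaPole c‖) := by gcongr
    _ ≤ 2 * ((A + 2) ^ 2 * (|t| + 2) ^ 2) * (2 * (2 + A) ^ 2 * (1 / a) ^ 2 * ‖zetaPole c‖) := by
        gcongr
    _ = 4 * (A + 2) ^ 4 * (|t| + 2) ^ 2 * (1 / a) ^ 2 * ‖zetaPole c‖ := by ring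

/-- the order of zeros under an affine map -/
private lemma ord_affine (c : ℂ) {r : ℝ} (hr : 0 < r) (w : ℂ) :
    analyticOrderNatAt (fun w : ℂ => zetaPole (c + (r : ℂ) * w)) w = zord (c + (r : ℂ) * w) := by
  have hrc : (r : ℂ) ≠ 0 := by exact_mod_cast hr.ne'
  set g : ℂ → ℂ := fun w => c + (r : ℂ) * w with hg
  have hgd : HasDerivAt g (r : ℂ) w := by
    have h := ((hasDerivAt_id w).const_mul (r : ℂ)).const_add c
    rw [mul_one] at h
    exact h
  have hga : AnalyticAt ℂ g w := by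
    rw [hg]
    fun_prop
  have h := analyticOrderAt_comp_of_deriv_ne_zero (f := zetaPole) hga (by rw [hgd.deriv]; exact hrc)
  have h2 : (fun w : ℂ => zetaPole (c + (r : ℂ) * w)) = zetaPole ∘ g := rfl
  unfold zord analyticOrderNatAt
  rw [h2, h]

theorem exists_HV {A η : ℝ} (hA : 0 < A) (hη : 0 < η) (hη1 : η ≤ 1) :
    ∃ C : ℝ, 0 < C ∧ ∀ a r t Λ : ℝ, 0 < a → a ≤ A → 0 < r → (1 + η) * r ≤ a + 1 / 2 → 1 ≤ Λ →
      Real.log (|t| + 2) ≤ Λ → Real.log (1 / a) ≤ Λ →
      ∃ (S : Finset ℂ) (H : ℂ → ℂ),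
        (∀ u, u ∈ S ↔ (u ∈ closedBall (pt a t) ((1 + η / 2) * r) ∧ zetaPole u = 0)) ∧
        (∀ u ∈ S, 1 ≤ zord u) ∧
        (∑ u ∈ S, (zord u : ℝ)) ≤ C * Λ ∧
        DifferentiableOn ℂ H (ball (pt a t) ((1 + η / 2) * r)) ∧
        (∀ z ∈ closedBall (pt a t) r, ‖H z‖ ≤ C * Λ / r) ∧
        ∀ z ∈ ball (pt a t) ((1 + η / 2) * r), zetaPole z ≠ 0 →
          deriv zetaPole z / zetaPole z = ∑ u ∈ S, (zord u : ℂ) / (z - u) + H z := by
  obtain ⟨C1, hC1, hmain⟩ := loc_log_an (R0 := 1) (R1 := 1 + η / 2) (R2 := 1 + η) one_pos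
    (by linarith) (by linarith)
  set D : ℝ := Real.log (4 * (A + 2) ^ 4) + 4 with hD
  have hbase : (1:ℝ) ≤ 4 * (A + 2) ^ 4 := by
    have : (1:ℝ) ≤ (A + 2) ^ 4 := one_le_pow₀ (by linarith)
    linarith
  have hlog0 : 0 ≤ Real.log (4 * (A + 2) ^ 4) := Real.log_nonneg hbase
  have hDpos : 0 < D := by rw [hD]; linarith
  refine ⟨C1 * D, by positivity, ?_⟩
  intro a r t Λ ha haA hr hrR hΛ ht hla
  have hrc : (r : ℂ) ≠ 0 := by exact_mod_cast hr.ne'
  set c : ℂ := pt a t with hc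
  have hcre : c.re = 1 + a := by rw [hc, pt]; simp
  set f : ℂ → ℂ := fun w => zetaPole (c + (r : ℂ) * w) with hf
  have hΛ0 : 0 < Λ := by linarith
  have hfa : ∀ w, AnalyticAt ℂ f w := by
    intro w
    have h1 : AnalyticAt ℂ (fun w : ℂ => c + (r : ℂ) * w) w := by fun_prop
    exact (zetaPole_analyticAt _).comp h1
  have hf0 : f 0 = zetaPole c := by
    rw [hf]
    simp only
    rw [mul_zero, add_zero]
  have hfc : f 0 ≠ 0 := by
    rw [hf0]
    exact zetaPole_ne_zero_of_one_le (by rw [hcre]; linarith)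
  have hbound : 4 * (A + 2) ^ 4 * (|t| + 2) ^ 2 * (1 / a) ^ 2 ≤ Real.exp (D * Λ) := by
    have ht0 : 0 < |t| + 2 := by positivity
    have e1 : 4 * (A + 2) ^ 4 ≤ Real.exp (Real.log (4 * (A + 2) ^ 4) * Λ) := by
      calc 4 * (A + 2) ^ 4 = Real.exp (Real.log (4 * (A + 2) ^ 4)) :=
            (Real.exp_log (by linarith)).symm
        _ ≤ _ := Real.exp_le_exp.2 (by nlinarith)
    have e2 : |t| + 2 ≤ Real.exp Λ := by
      rw [← Real.log_le_iff_le_exp ht0]
      exact ht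
    have e3 : 1 / a ≤ Real.exp Λ := by
      rw [← Real.log_le_iff_le_exp (by positivity)]
      exact hla
    have hA2 : 0 < 4 * (A + 2) ^ 4 := by linarith
    calc 4 * (A + 2) ^ 4 * (|t| + 2) ^ 2 * (1 / a) ^ 2
        ≤ Real.exp (Real.log (4 * (A + 2) ^ 4) * Λ) * (Real.exp Λ) ^ 2 * (Real.exp Λ) ^ 2 := by
          gcongr
      _ = Real.exp (D * Λ) := by
          rw [← Real.exp_nat_mul, ← Real.exp_add, ← Real.exp_add, hD]
          congr 1
          push_cast
          ring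
  have hup : ∀ w ∈ closedBall (0:ℂ) (1 + η), ‖f w‖ ≤ Real.exp (D * Λ) * ‖f 0‖ := by
    intro w hw
    rw [mem_closedBall, dist_eq_norm, sub_zero] at hw
    have hz : c + (r : ℂ) * w ∈ closedBall c ((1 + η) * r) := by
      rw [mem_closedBall, dist_eq_norm, add_sub_cancel_left, norm_mul, Complex.norm_real,
        Real.norm_of_nonneg hr.le]
      nlinarith
    have h1 := ratio_hv (A := A) (R := (1 + η) * r) (t := t) ha haA hrR _ hz
    rw [hf0]
    exact h1.trans (by gcongr)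
  obtain ⟨S', H', hS1, hS2, hS3, hS4, hS5, hS6⟩ := hmain f 0 (D * Λ) (by positivity)
    (fun w _ => hfa w) hfc hup
  set φ : ℂ → ℂ := fun w => c + (r : ℂ) * w with hφ
  have hφi : Function.Injective φ := by
    intro x y hxy
    rw [hφ] at hxy
    simp only [add_right_inj] at hxy
    exact mul_left_cancel₀ hrc hxy
  have hφs : ∀ z : ℂ, φ ((z - c) / r) = z := by
    intro z
    rw [hφ]
    simp only
    rw [mul_div_cancel₀ _ hrc, add_sub_cancel]
  have hnw : ∀ (w : ℂ), ‖φ w - c‖ = r * ‖w‖ := by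
    intro w
    rw [hφ]
    simp only
    rw [add_sub_cancel_left, norm_mul, Complex.norm_real, Real.norm_of_nonneg hr.le]
  refine ⟨S'.image φ, fun z => H' ((z - c) / r) / r, ?_, ?_, ?_, ?_, ?_, ?_⟩
  · intro u
    rw [Finset.mem_image]
    constructor
    · rintro ⟨w, hw, rfl⟩
      obtain ⟨h1, h2⟩ := (hS1 w).1 hw
      rw [mem_closedBall, dist_eq_norm, sub_zero] at h1
      refine ⟨?_, h2⟩
      rw [mem_closedBall, dist_eq_norm, hnw]
      nlinarith
    · rintro ⟨h1, h2⟩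
      refine ⟨(u - c) / r, (hS1 _).2 ⟨?_, ?_⟩, hφs u⟩
      · rw [mem_closedBall, dist_eq_norm] at h1
        rw [mem_closedBall, dist_eq_norm, sub_zero, norm_div, Complex.norm_real,
          Real.norm_of_nonneg hr.le, div_le_iff₀ hr]
        exact h1
      · have h3 := hφs u
        have h4 : f ((u - c) / r) = zetaPole (φ ((u - c) / r)) := rfl
        rw [h4, h3]
        exact h2
  · intro u hu
    rw [Finset.mem_image] at hu
    obtain ⟨w, hw, rfl⟩ := hu
    have h1 := hS2 w hw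
    rw [hf, ord_affine c hr w] at h1
    exact h1
  · rw [Finset.sum_image (fun x _ y _ h => hφi h)]
    have h1 : ∑ w ∈ S', (zord (φ w) : ℝ) = ∑ w ∈ S', (analyticOrderNatAt f w : ℝ) := by
      refine Finset.sum_congr rfl fun w _ => ?_
      rw [hf, ord_affine c hr w]
    rw [h1]
    exact hS3.trans (le_of_eq (by ring))
  · intro z hz
    rw [mem_ball, dist_eq_norm] at hz
    have hw : (z - c) / r ∈ ball (0:ℂ) (1 + η / 2) := by
      rw [mem_ball, dist_eq_norm, sub_zero, norm_div, Complex.norm_real,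
        Real.norm_of_nonneg hr.le, div_lt_iff₀ hr]
      exact hz
    have h1 : DifferentiableAt ℂ H' ((z - c) / r) :=
      hS4.differentiableAt (isOpen_ball.mem_nhds hw)
    have h2 : DifferentiableAt ℂ (fun z : ℂ => (z - c) / (r : ℂ)) z := by fun_prop
    have h3 : DifferentiableAt ℂ (fun z : ℂ => H' ((z - c) / (r : ℂ))) z := h1.comp z h2
    exact (h3.div_const _).differentiableWithinAt
  · intro z hz
    rw [mem_closedBall, dist_eq_norm] at hz
    have hw : (z - c) / r ∈ closedBall (0:ℂ) 1 := by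
      rw [mem_closedBall, dist_eq_norm, sub_zero, norm_div, Complex.norm_real,
        Real.norm_of_nonneg hr.le, div_le_iff₀ hr, one_mul]
      exact hz
    have h1 := hS5 _ hw
    simp only
    rw [norm_div, Complex.norm_real, Real.norm_of_nonneg hr.le]
    gcongr
    exact h1.trans (le_of_eq (by ring))
  · intro z hz hne
    rw [mem_ball, dist_eq_norm] at hz
    set w : ℂ := (z - c) / r with hwdef
    have hw : w ∈ ball (0:ℂ) (1 + η / 2) := by
      rw [hwdef, mem_ball, dist_eq_norm, sub_zero, norm_div, Complex.norm_real,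
        Real.norm_of_nonneg hr.le, div_lt_iff₀ hr]
      exact hz
    have hφw : φ w = z := hφs z
    have hfw : f w = zetaPole z := by
      have h4 : f w = zetaPole (φ w) := rfl
      rw [h4, hφw]
    have h1 := hS6 w hw (by rw [hfw]; exact hne)
    have hd : deriv f w = (r : ℂ) * deriv zetaPole z := by
      have hgd : HasDerivAt φ (r : ℂ) w := by
        have h := ((hasDerivAt_id w).const_mul (r : ℂ)).const_add c
        rw [mul_one] at h
        exact h
      have hz' : HasDerivAt zetaPole (deriv zetaPole z) (φ w) := by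
        rw [hφw]
        exact (zetaPole_analyticAt z).differentiableAt.hasDerivAt
      have h5 := hz'.comp w hgd
      have h6 : f = zetaPole ∘ φ := rfl
      rw [h6, h5.deriv]
      ring
    rw [hd, hfw] at h1
    have h2 : deriv zetaPole z / zetaPole z = ((r : ℂ) * deriv zetaPole z / zetaPole z) / r := by
      field_simp
    rw [h2, h1, add_div]
    simp only
    congr 1
    rw [Finset.sum_div, Finset.sum_image (fun x _ y _ h => hφi h)]
    refine Finset.sum_congr rfl fun v _ => ?_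
    have h3 : (analyticOrderNatAt f v : ℂ) = (zord (φ v) : ℂ) := by
      rw [hf, ord_affine c hr v]
    have h4 : z - φ v = (r : ℂ) * (w - v) := by
      rw [← hφw, hφ]
      simp only
      ring
    rw [h3, h4, div_div, mul_comm (w - v)]

end Pool.Agent.H76.SV
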