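import Mathlib
import Pool.Agent.H52.Unc.LargeU

/-!
# LargeV: many zeros near `ρ` make `ζ` large near `ρ` (Jensen), uniform in `d → 0`

Near-copy of `H52/Unc/LargeU.lean` (helper43) and `H76/CR/Large.lean` (helper18).
`D = 2 K^2/ε + 2`, centre `z0 = ρ + D d` (so `re z0 ≥ 1 + (D-1) d`), `r1 = (D + 5ε/4) d`,
`r2 = (D + 2ε) d`.  A zero `u` with `re u ≥ β - εd`, `‖u-ρ‖ ≤ K d` has
`‖u - z0‖^2 = D^2 d^2 - 2 D d (re u - β) + ‖u-ρ‖^2 ≤ (D^2 + 2Dε + K^2) d^2 ≤ r1^2`
(`K^2 ≤ D ε/2`).  `ζ` is analytic near `closedBall z0 r2` since `|ρ.im| ≥ C > r2 + 1`; rescale the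
disc to the unit disc as in `LargeU`.  Jensen: `n log(r2/r1) ≤ log(M/‖ζ z0‖)`, `M` the maximum of
`‖ζ‖` on `closedBall z0 r2`; `log(r2/r1) = log((D+2ε)/(D+5ε/4)) =: c0 > 0`, depends on `K, ε` only;
`‖ζ z0‖ ≥ (re z0 - 1)/re z0 ≥ c1 d`.  If `M ≤ N^(c' d)` (`c' = c c0/4`) then
`c c0 d log N ≤ (c c0/4) d log N + log(1/(c1 d))`, while `1/d ≤ log N` (from `C ≤ d log N`), so
`log(1/(c1 d)) ≤ log(1/c1) + log log N ≤ (c c0/2) d log N`, contradiction.  A point `s` of
`closedBall z0 r2` has `re s ≥ β + D d - (D + 2ε) d = β - 2εd` and `‖s-ρ‖ ≤ (2D + 2ε) d ≤ C`.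
About 130 lines.
-/

set_option autoImplicit false

open Complex Metric

namespace Pool.Agent.H76.SV

open Pool.Agent.H76.CR Pool.Agent.H52.Unc Pool.Agent.H6 Pool.Agent.H6.Win

private lemma aux_sqV {x y r B A ε : ℝ} (hx0 : 0 ≤ x) (hxB : x ≤ B) (hy : |y| ≤ r)
    (hAε : r ^ 2 ≤ A * ε / 2) (hAB : A ≤ B) (hε : 0 < ε) :
    x ^ 2 + y ^ 2 ≤ (B + ε / 4) ^ 2 := by
  have h1 : x ^ 2 ≤ B ^ 2 := pow_le_pow_left₀ hx0 hxB 2
  have h2 : y ^ 2 ≤ r ^ 2 := sq_le_sq' (abs_le.1 hy).1 (abs_le.1 hy).2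
  have h3 : A * ε / 2 ≤ B * ε / 2 := by gcongr
  have h4 : (B + ε / 4) ^ 2 = B ^ 2 + B * ε / 2 + (ε / 4) ^ 2 := by ring
  have h5 : 0 ≤ (ε / 4) ^ 2 := sq_nonneg _
  rw [h4]; linarith

/-- `ζ(x) ≤ 1 + 1/(x-1)` -/
private lemma sum_leV {x : ℝ} (hx : 1 < x) : ∑' n : ℕ, 1 / (n : ℝ) ^ x ≤ 1 + 1 / (x - 1) := by
  have hs : Summable (fun n : ℕ => 1 / (n : ℝ) ^ x) := Real.summable_one_div_nat_rpow.2 hx
  rw [hs.tsum_eq_zero_add]
  have h0 : (1 : ℝ) / ((0 : ℕ) : ℝ) ^ x = 0 := by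
    rw [Nat.cast_zero, Real.zero_rpow (by linarith), div_zero]
  rw [h0, zero_add]
  have h1 := ZetaAsymptotics.zeta_limit_aux1 hx
  have h2 : 0 ≤ ZetaAsymptotics.termTSum x := tsum_nonneg fun n => ZetaAsymptotics.term_nonneg _ _
  have h3 : ∑' n : ℕ, 1 / (n + 1 : ℝ) ^ x = 1 / (x - 1) + (1 - x * ZetaAsymptotics.termTSum x) := by
    linarith
  have h4 : (∑' n : ℕ, 1 / ((n + 1 : ℕ) : ℝ) ^ x) = ∑' n : ℕ, 1 / (n + 1 : ℝ) ^ x := by
    refine tsum_congr fun n => ?_
    push_cast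
    rfl
  rw [h4, h3]
  have h5 : 0 ≤ x * ZetaAsymptotics.termTSum x := mul_nonneg (by linarith) h2
  linarith

theorem largeV {K ε c : ℝ} (hK : 0 < K) (hε : 0 < ε) (hε1 : ε ≤ 1) (hc : 0 < c) :
    ∃ c' C : ℝ, 0 < c' ∧ 1 ≤ C ∧ ∀ (ρ : ℂ) (d N : ℝ), riemannZeta ρ = 0 → 0 < d → d ≤ 1 / 2 →
      1 - d ≤ ρ.re → C ≤ |ρ.im| → 1 ≤ N → C ≤ d * Real.log N →
      C * Real.log (Real.log N) ≤ d * Real.log N →
      c * d * Real.log N ≤ rz (K * d) (ρ.re - ε * d) ρ →
      ∃ s : ℂ, ρ.re - 2 * ε * d ≤ s.re ∧ ‖s - ρ‖ ≤ C ∧ N ^ (c' * d) < ‖riemannZeta s‖ := by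
  set A : ℝ := 2 * K ^ 2 / ε + 1 with hA
  have hA1 : 1 ≤ A := by
    have : 0 ≤ 2 * K ^ 2 / ε := by positivity
    rw [hA]; linarith
  have hAε : K ^ 2 ≤ A * ε / 2 := by
    rw [hA]
    have h1 : (2 * K ^ 2 / ε + 1) * ε / 2 = K ^ 2 + ε / 2 := by
      field_simp
    rw [h1]; linarith
  set D : ℝ := A + 1 + 2 * ε with hD
  have hD0 : 0 < D := by rw [hD]; linarith
  set q : ℝ := 1 - 3 * ε / 4 / D with hq
  have hq1 : q < 1 := by
    have : 0 < 3 * ε / 4 / D := by positivity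
    rw [hq]; linarith
  have hq0 : 0 < q := by
    have : 3 * ε / 4 / D < 1 := by
      rw [div_lt_one hD0, hD]; linarith
    rw [hq]; linarith
  obtain ⟨L, hL, hloc⟩ := loc_log (R0 := q / 2) (R1 := q) (R2 := 1) (by linarith) (by linarith)
    hq1
  refine ⟨c / (4 * L), max (2 * A + 5) (16 * L / c), by positivity,
    le_trans (by linarith) (le_max_left _ _), ?_⟩
  intro ρ d N hρ hd hd1 hre him hN hdN hlog hnear
  set C : ℝ := max (2 * A + 5) (16 * L / c) with hC
  have hCA : 2 * A + 5 ≤ C := le_max_left _ _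
  have hCL : 16 * L / c ≤ C := le_max_right _ _
  have hC1 : 1 ≤ C := by linarith
  have hN0 : 0 < N := by linarith
  have hlogN : 1 / d ≤ Real.log N := by
    rw [div_le_iff₀ hd]
    linarith
  have hlogN0 : 0 < Real.log N := lt_of_lt_of_le (by positivity) hlogN
  have hdl : 0 < d * Real.log N := by positivity
  have hre1 : ρ.re < 1 := re_lt_one hρ
  by_contra hcon
  push Not at hcon
  have hAd : 0 < A * d := by positivity
  have hAd2 : A * d ≤ A / 2 := by nlinarith
  have hεd : ε * d ≤ 1 / 2 := by nlinarith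
  have hεd0 : 0 < ε * d := by positivity
  set s0 : ℂ := ((1 + A * d : ℝ) : ℂ) + ρ.im * I with hs0
  have hs0re : s0.re = 1 + A * d := by simp [hs0]
  have hs0im : s0.im = ρ.im := by simp [hs0]
  have hdist : ‖s0 - ρ‖ = 1 + A * d - ρ.re := by
    have h1 : s0 - ρ = ((1 + A * d - ρ.re : ℝ) : ℂ) := by
      apply Complex.ext
      · simp [hs0]
      · simp [hs0]
    rw [h1, Complex.norm_real, Real.norm_eq_abs, abs_of_pos (by linarith)]
  have hζ0 : riemannZeta s0 ≠ 0 :=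
    riemannZeta_ne_zero_of_one_le_re (by rw [hs0re]; linarith)
  have hBd : 1 + 1 / (A * d) ≤ 2 / d := by
    have h1 : 1 / (A * d) ≤ 1 / d := by
      apply one_div_le_one_div_of_le hd
      nlinarith
    have h2 : 1 ≤ 1 / d := by
      rw [le_div_iff₀ hd]; linarith
    have h3 : 2 / d = 1 / d + 1 / d := by ring
    rw [h3]; linarith
  have hζlow : 1 ≤ 2 / d * ‖riemannZeta s0‖ := by
    have h1 := norm_inv_riemannZeta_le (s := s0) (x := 1 + A * d) (by linarith) (by rw [hs0re])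
    have hpos : 0 < ‖riemannZeta s0‖ := norm_pos_iff.2 hζ0
    rw [norm_inv, inv_le_iff_one_le_mul₀ hpos] at h1
    refine h1.trans ?_
    have h2 := sum_leV (x := 1 + A * d) (by linarith)
    rw [add_sub_cancel_left] at h2
    exact mul_le_mul_of_nonneg_right (h2.trans hBd) hpos.le
  set Λ : ℝ := c / (4 * L) * d * Real.log N + Real.log (2 / d) with hΛ
  have hlog2d : Real.log (2 / d) ≤ 1 + Real.log (Real.log N) := by
    have h1 : Real.log (2 / d) = Real.log 2 + Real.log (1 / d) := by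
      rw [← Real.log_mul (by norm_num) (by positivity)]
      congr 1
      ring
    have h2 : Real.log (1 / d) ≤ Real.log (Real.log N) := Real.log_le_log (by positivity) hlogN
    have h3 : Real.log 2 ≤ 1 := by
      have := Real.log_two_lt_d9
      linarith
    rw [h1]; linarith
  have hlog2d0 : 0 < Real.log (2 / d) := Real.log_pos (by rw [lt_div_iff₀ hd]; linarith)
  have hΛ0 : 0 < Λ := by
    have : 0 < c / (4 * L) * d * Real.log N := by positivity
    rw [hΛ]; linarith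
  have hexp : N ^ (c / (4 * L) * d) * (2 / d) = Real.exp Λ := by
    rw [hΛ, Real.exp_add, Real.exp_log (by positivity), Real.rpow_def_of_pos hN0,
      mul_comm (Real.log N)]
  set R : ℝ := A * d + 1 - ρ.re + 2 * (ε * d) with hR
  have hR0 : 0 < R := by rw [hR]; linarith
  have hRD : R ≤ D * d := by rw [hR, hD]; linarith
  have hqR : R - 3 * (ε * d) / 4 ≤ q * R := by
    have h1 : 3 * ε / 4 / D * R ≤ 3 * (ε * d) / 4 := by
      rw [div_mul_eq_mul_div, div_le_iff₀ hD0]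
      calc 3 * ε / 4 * R ≤ 3 * ε / 4 * (D * d) := by gcongr
        _ = 3 * (ε * d) / 4 * D := by ring
    rw [hq]; linarith
  have hball : ∀ z ∈ closedBall (0 : ℂ) 1, ‖(R : ℂ) * z‖ ≤ R := by
    intro z hz
    rw [mem_closedBall, dist_zero_right] at hz
    rw [norm_mul, Complex.norm_real, Real.norm_eq_abs, abs_of_pos hR0]
    exact mul_le_of_le_one_right hR0.le hz
  have han : AnalyticOnNhd ℂ (fun z => riemannZeta (s0 + R * z)) (closedBall 0 1) := by
    intro z hz
    have hz1 := hball z hz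
    have h1 : s0 + R * z ≠ 1 := by
      intro h
      have h2 : (R : ℂ) * z = 1 - s0 := by rw [← h]; ring
      have h3 := (abs_im_le_norm ((R : ℂ) * z)).trans hz1
      rw [h2, sub_im, one_im, zero_sub, abs_neg, hs0im] at h3
      rw [hR] at h3
      linarith
    have h3 : DifferentiableOn ℂ riemannZeta {1}ᶜ := fun w hw =>
      (differentiableAt_riemannZeta hw).differentiableWithinAt
    have h4 : AnalyticAt ℂ riemannZeta (s0 + R * z) :=
      h3.analyticAt (isOpen_compl_singleton.mem_nhds h1)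
    exact h4.comp_of_eq (analyticAt_const.add (analyticAt_const.mul analyticAt_id)) rfl
  have hbd : ∀ z ∈ closedBall (0 : ℂ) 1, ‖(fun z => riemannZeta (s0 + R * z)) z‖ ≤
      Real.exp Λ * ‖(fun z => riemannZeta (s0 + R * z)) 0‖ := by
    intro z hz
    have hz1 := hball z hz
    simp only [mul_zero, add_zero]
    have h0 : ρ.re - 2 * ε * d ≤ (s0 + R * z).re := by
      rw [add_re, hs0re]
      have h5 := (abs_re_le_norm ((R : ℂ) * z)).trans hz1
      rw [abs_le] at h5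
      rw [hR] at h5
      linarith [h5.1]
    have h1 : ‖s0 + R * z - ρ‖ ≤ C := by
      refine le_trans ?_ hCA
      calc ‖s0 + R * z - ρ‖ = ‖(R * z) + (s0 - ρ)‖ := by congr 1; ring
        _ ≤ ‖(R : ℂ) * z‖ + ‖s0 - ρ‖ := norm_add_le _ _
        _ ≤ 2 * A + 5 := by rw [hdist]; rw [hR] at hz1; linarith
    have h2 := hcon _ h0 h1
    have hNp : 0 ≤ N ^ (c / (4 * L) * d) := by positivity
    calc ‖riemannZeta (s0 + R * z)‖ ≤ N ^ (c / (4 * L) * d) := h2
      _ = N ^ (c / (4 * L) * d) * 1 := by ring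
      _ ≤ N ^ (c / (4 * L) * d) * (2 / d * ‖riemannZeta s0‖) := by gcongr
      _ = N ^ (c / (4 * L) * d) * (2 / d) * ‖riemannZeta s0‖ := by ring
      _ = _ := by rw [hexp]
  obtain ⟨S, hS, hord, hsum, -⟩ := hloc (fun z => riemannZeta (s0 + R * z)) 0 Λ hΛ0 han
    (by simpa using hζ0) hbd
  have hRne : (R : ℂ) ≠ 0 := by exact_mod_cast hR0.ne'
  have hcard : (rz (K * d) (ρ.re - ε * d) ρ : ℝ) ≤ S.card := by
    have h1 : rz (K * d) (ρ.re - ε * d) ρ ≤ S.card := by
      unfold rz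
      have hinj : Function.Injective (fun u : ℂ => (u - s0) / R) := by
        intro u v huv
        have h2 : (u - s0) / R = (v - s0) / R := huv
        rw [div_left_inj' hRne] at h2
        exact sub_left_injective h2
      rw [← Set.ncard_coe_finset S, ← Set.ncard_image_of_injective _ hinj]
      refine Set.ncard_le_ncard ?_ S.finite_toSet
      rintro z ⟨u, ⟨hu, hure, hur⟩, rfl⟩
      rw [Finset.mem_coe, hS, mem_closedBall, dist_zero_right]
      constructor
      · simp only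
        rw [norm_div, Complex.norm_real, Real.norm_eq_abs, abs_of_pos hR0, div_le_iff₀ hR0]
        refine le_trans ?_ hqR
        have hu1 : u.re < 1 := re_lt_one hu
        have h3 : ‖u - s0‖ ^ 2 ≤ (R - 3 * (ε * d) / 4) ^ 2 := by
          have h5 : |u.im - ρ.im| ≤ K * d := by
            have h6 := (abs_im_le_norm (u - ρ)).trans hur
            rwa [sub_im] at h6
          have h6 : (K * d) ^ 2 ≤ A * d * (ε * d) / 2 := by
            have h9 : K ^ 2 * d ^ 2 ≤ A * ε / 2 * d ^ 2 := by gcongr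
            calc (K * d) ^ 2 = K ^ 2 * d ^ 2 := by ring
              _ ≤ A * ε / 2 * d ^ 2 := h9
              _ = _ := by ring
          have h7 := aux_sqV (x := 1 + A * d - u.re) (B := A * d + 1 - ρ.re + ε * d) (by linarith)
            (by linarith) h5 h6 (by linarith) hεd0
          have h8 : R - 3 * (ε * d) / 4 = A * d + 1 - ρ.re + ε * d + ε * d / 4 := by rw [hR]; ring
          rw [Complex.sq_norm, Complex.normSq_apply, sub_re, sub_im, hs0re, hs0im, h8]
          refine le_trans (le_of_eq ?_) h7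
          ring
        have h4 : 0 ≤ R - 3 * (ε * d) / 4 := by rw [hR]; linarith
        exact (sq_le_sq₀ (norm_nonneg _) h4).1 h3
      · simp only
        have h3 : s0 + R * ((u - s0) / R) = u := by
          rw [mul_div_cancel₀ _ hRne]; ring
        rw [h3, hu]
    exact_mod_cast h1
  have hcard2 : (S.card : ℝ) ≤ L * Λ := by
    refine le_trans ?_ hsum
    have h1 : (S.card : ℝ) = ∑ u ∈ S, (1 : ℝ) := by simp
    rw [h1]
    refine Finset.sum_le_sum fun u hu => ?_
    exact_mod_cast hord u hu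
  have hfin : c * d * Real.log N ≤ L * Λ := hnear.trans (hcard.trans hcard2)
  have hLΛ : L * Λ = c / 4 * (d * Real.log N) + L * Real.log (2 / d) := by
    rw [hΛ]; field_simp
  rw [hLΛ] at hfin
  -- `L ≤ (c/16) C`
  have hLC : L ≤ c / 16 * C := by
    rw [div_le_iff₀ hc] at hCL
    linarith
  have h1 : L * Real.log (2 / d) ≤ c / 16 * C * (1 + Real.log (Real.log N)) := by
    have h2 : 0 ≤ 1 + Real.log (Real.log N) := hlog2d0.le.trans hlog2d
    calc L * Real.log (2 / d) ≤ L * (1 + Real.log (Real.log N)) := by gcongr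
      _ ≤ _ := by gcongr
  have h2 : c / 16 * C * (1 + Real.log (Real.log N)) =
      c / 16 * (C + C * Real.log (Real.log N)) := by ring
  have h3 : c / 16 * (C + C * Real.log (Real.log N)) ≤
      c / 16 * (d * Real.log N + d * Real.log N) := by gcongr
  have h4 : 0 < c * (d * Real.log N) := by positivity
  linarith

end Pool.Agent.H76.SV
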