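import Mathlib

/-!
# Num: numerical lemmas for Main
-/

set_option autoImplicit false

namespace Pool.Agent.H76.SV

/-- powers of the logarithm are absorbed -/
theorem absorb {C B W N y q : ℝ} (m : ℕ) (hW1 : 1 ≤ W) (hBW : B ≤ W) (hC : (m : ℝ) + 1 ≤ C * q)
    (hq : 0 < q) (hN : 0 < N) (h : W ^ C ≤ N ^ y) : B * W ^ m ≤ N ^ (q * y) := by
  have hW0 : 0 < W := by linarith
  calc B * W ^ m ≤ W * W ^ m := by gcongr
    _ = W ^ ((m : ℝ) + 1) := by
        rw [Real.rpow_add hW0, Real.rpow_one, Real.rpow_natCast, mul_comm]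
    _ ≤ W ^ (C * q) := Real.rpow_le_rpow_of_exponent_le hW1 hC
    _ = (W ^ C) ^ q := by rw [Real.rpow_mul hW0.le]
    _ ≤ (N ^ y) ^ q := Real.rpow_le_rpow (Real.rpow_nonneg hW0.le _) h hq.le
    _ = N ^ (q * y) := by rw [← Real.rpow_mul hN.le, mul_comm]

/-- the size of the heights -/
theorem heights {T N H e : ℝ} (hT : 3 ≤ T) (hN : 1 ≤ N) (he : 2 ≤ e) (hH : H ≤ N ^ e) :
    T + H + 3 ≤ (T + N) ^ (e + 1) ∧ ∀ N' : ℝ, N' ≤ N ^ (2 : ℝ) → T + H + N' ≤ (T + N) ^ (e + 1) := by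
  have hTN : 4 ≤ T + N := by linarith
  have hTN0 : 0 < T + N := by linarith
  have h1 : N ^ e ≤ (T + N) ^ e := Real.rpow_le_rpow (by linarith) (by linarith) (by linarith)
  have h2 : (T + N) ^ (2 : ℝ) ≤ (T + N) ^ e :=
    Real.rpow_le_rpow_of_exponent_le (by linarith) he
  have h3 : (T + N) ^ (e + 1) = (T + N) ^ e * (T + N) := by
    rw [Real.rpow_add hTN0, Real.rpow_one]
  have h4 : (T + N) ^ (2 : ℝ) = (T + N) * (T + N) := by rw [Real.rpow_two, sq]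
  have h8 : N ^ (2 : ℝ) ≤ (T + N) ^ (2 : ℝ) :=
    Real.rpow_le_rpow (by linarith) (by linarith) (by norm_num)
  have h5 : 0 < (T + N) ^ e := Real.rpow_pos_of_pos hTN0 _
  rw [h4] at h2
  have h6 : T + 3 ≤ (T + N) * (T + N) := by nlinarith
  have h7 : (T + N) ^ e * 4 ≤ (T + N) ^ e * (T + N) := mul_le_mul_of_nonneg_left hTN h5.le
  have h9 : T + 3 ≤ (T + N) ^ e := h6.trans h2
  have h10 : H ≤ (T + N) ^ e := hH.trans h1
  rw [h3]
  refine ⟨by linarith, fun N' hN' => ?_⟩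
  have h11 : N' ≤ (T + N) ^ e := hN'.trans (h8.trans (h4.le.trans h2))
  clear h1 h2 h3 h4 h8 h6 hN' he hH
  calc T + H + N' ≤ (T + N) ^ e + (T + N) ^ e + (T + N) ^ e := by linarith
    _ ≤ (T + N) ^ e * 4 := by linarith
    _ ≤ _ := h7

end Pool.Agent.H76.SV
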