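import Mathlib
import Pool.Agent.H76.CR.DerivL
import Pool.Agent.H52.Unc.Defs

/-!
# PartSumV: if all prime sums are small then `tPoly` is small, uniform in `a` and `d`

Near-copy of `H52/Unc/PartSumU.lean` (helper29; its private lemmas can be reused, for instance the
bound for the prime powers and the variation of `(log n)^k / k! n^(-1-a)`), only the last numbers
change.  `L = log N`, `A = ⌈N^(1-7θ)⌉₊`; `C` is large depending on `θ, A', ε` (`A'` = the bound for `a`),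
so `N` is larger than any constant that is needed, because `C ≤ N^(ε d/4) ≤ N`.
Prime powers: `≤ C1 (1+L)^2 N^(-(1-7θ)/2)` and `(1-7θ)/2 ≥ 1/2 - ε/8 ≥ (1-β) + (ε/4) d + ε/4`
(`1 - β ≤ 1/2 - ε`, `d ≤ 1/2`).
Primes: Abel summation; for `M ∈ [A-1, N]`, `A - 1 ≥ N^(1-ε)`, `‖pSum M t‖ < M^(β-εd)`; the variation of
the weight at `M` is `≤ C1 (1+L)^2/M^2`, `∑_{A ≤ M ≤ N} M^(β-εd-2) ≤ A^(β-εd-1) (1+L)`, total
`≤ C1 (1+L)^3 N^(-(1-7θ)(1-β+εd))`, and `(1-7θ)(1-β+εd) ≥ (1-β) + εd - (ε/4)(1+ε)d ≥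
(1-β) + (ε/2) d + (ε/8) d`  (`7θ ≤ ε/4`, `1 - β ≤ d`).
The hypothesis `C (1+L)^4 ≤ N^(ε d/4)` absorbs the powers of `L`.  About 170 lines.
-/

set_option autoImplicit false

open Complex

namespace Pool.Agent.H76.SV

open Pool.Agent.H76.CR Pool.Agent.H52.Unc

/-- Abel summation on `Icc A B`. -/
private theorem abel_icc (f : ℕ → ℂ) (h : ℕ → ℝ) {A : ℕ} (hA : 1 ≤ A) (B : ℕ) (hAB : A ≤ B) :
    ∑ n ∈ Finset.Icc A B, (h n : ℂ) * f n =
      (h B : ℂ) * (∑ n ∈ Finset.Icc 1 B, f n) - (h A : ℂ) * (∑ n ∈ Finset.Icc 1 (A - 1), f n) +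
      ∑ m ∈ Finset.Ico A B, ((h m : ℂ) - h (m + 1)) * (∑ n ∈ Finset.Icc 1 m, f n) := by
  induction B, hAB using Nat.le_induction with
  | base =>
    obtain ⟨A', rfl⟩ : ∃ A', A = A' + 1 := ⟨A - 1, by omega⟩
    rw [Finset.sum_Icc_succ_top (by omega : 1 ≤ A' + 1)]
    simp
    ring
  | succ B hB ih =>
    rw [Finset.sum_Icc_succ_top (by omega), ih, Finset.sum_Icc_succ_top (by omega),
      Finset.sum_Ico_succ_top hB]
    ring

private theorem log_pow_le {a x : ℝ} (ha : 0 < a) (hx : 1 ≤ x) (k : ℕ) :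
    Real.log x ^ k / (k.factorial : ℝ) ≤ (a ^ k)⁻¹ * x ^ a := by
  have hl : 0 ≤ Real.log x := Real.log_nonneg hx
  have h1 := Real.pow_div_factorial_le_exp (a * Real.log x) (by positivity) k
  have h2 : Real.exp (a * Real.log x) = x ^ a := by
    rw [Real.rpow_def_of_pos (by linarith), mul_comm]
  rw [h2, mul_pow] at h1
  have hak : 0 < a ^ k := by positivity
  rw [← div_eq_inv_mul, le_div_iff₀ hak]
  calc Real.log x ^ k / (k.factorial : ℝ) * a ^ k = a ^ k * Real.log x ^ k / (k.factorial : ℝ) := by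
        ring
    _ ≤ _ := h1

/-- `Λ`-free part times `log`. -/
private noncomputable def hf (a : ℝ) (k : ℕ) (x : ℝ) : ℝ :=
  Real.log x ^ (k + 1) / (k.factorial : ℝ) * x ^ (-(1 + a))

private theorem hf_deriv {a x : ℝ} (hx : 0 < x) (k : ℕ) :
    HasDerivAt (hf a k) (((k + 1 : ℝ) * Real.log x ^ k * x⁻¹) / (k.factorial : ℝ) * x ^ (-(1 + a)) +
      Real.log x ^ (k + 1) / (k.factorial : ℝ) * (-(1 + a) * x ^ (-(1 + a) - 1))) x := by
  have h1 := (Real.hasDerivAt_log hx.ne').pow (k + 1)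
  have h2 := (h1.div_const (k.factorial : ℝ)).mul
    (Real.hasDerivAt_rpow_const (x := x) (p := -(1 + a)) (Or.inl hx.ne'))
  refine h2.congr_deriv ?_
  simp

private theorem hf_bound {a x L : ℝ} (ha : 0 < a) (hx : 1 ≤ x) (hL : Real.log x ≤ L) (k : ℕ) :
    |hf a k x| ≤ (a ^ k)⁻¹ * L * x⁻¹ := by
  have hx0 : 0 < x := by linarith
  have hl : 0 ≤ Real.log x := Real.log_nonneg hx
  have h1 := log_pow_le ha hx k
  have hak : 0 < (a ^ k)⁻¹ := by positivity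
  have e1 : hf a k x = (Real.log x ^ k / (k.factorial : ℝ)) * Real.log x * x ^ (-(1 + a)) := by
    rw [hf, pow_succ]; ring
  have e2 : 0 ≤ hf a k x := by rw [e1]; positivity
  rw [abs_of_nonneg e2, e1]
  have e3 : x ^ a * x ^ (-(1 + a)) = x⁻¹ := by
    rw [← Real.rpow_add hx0, ← Real.rpow_neg_one]
    congr 1; ring
  calc (Real.log x ^ k / (k.factorial : ℝ)) * Real.log x * x ^ (-(1 + a))
      ≤ ((a ^ k)⁻¹ * x ^ a) * L * x ^ (-(1 + a)) := by
        gcongr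
    _ = (a ^ k)⁻¹ * L * (x ^ a * x ^ (-(1 + a))) := by ring
    _ = _ := by rw [e3]

private theorem hf_diff {a L A : ℝ} (ha : 0 < a) (hL : 1 ≤ L) (hA : 1 ≤ A) {k : ℕ}
    (hk : (k : ℝ) ≤ a * L) {m : ℝ} (hm : A ≤ m) (hm2 : Real.log (m + 1) ≤ L) :
    |hf a k m - hf a k (m + 1)| ≤ (a ^ k)⁻¹ * ((1 + a) * L) * (A⁻¹) ^ 2 := by
  have hm0 : 0 < m := by linarith
  have hA0 : 0 < A := by linarith
  obtain ⟨c, hc, hc2⟩ := exists_hasDerivAt_eq_slope (hf a k) _ (show m < m + 1 by linarith)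
    (fun x hx => ((hf_deriv (a := a) (by linarith [hx.1] : 0 < x) k).continuousAt).continuousWithinAt)
    (fun x hx => hf_deriv (a := a) (by linarith [hx.1] : 0 < x) k)
  have hc1 : 1 ≤ c := by linarith [hc.1]
  have hc0 : 0 < c := by linarith
  have hAc : A ≤ c := by linarith [hc.1]
  have hlc : 0 ≤ Real.log c := Real.log_nonneg hc1
  have hlL : Real.log c ≤ L := (Real.log_le_log hc0 hc.2.le).trans hm2
  have h1 := log_pow_le ha hc1 k
  have e0 : hf a k m - hf a k (m + 1) = -((hf a k (m + 1) - hf a k m) / (m + 1 - m)) := by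
    rw [show m + 1 - m = (1:ℝ) by ring, div_one]; ring
  rw [e0, ← hc2, abs_neg]
  have e1 : ((k + 1 : ℝ) * Real.log c ^ k * c⁻¹) / (k.factorial : ℝ) * c ^ (-(1 + a)) +
      Real.log c ^ (k + 1) / (k.factorial : ℝ) * (-(1 + a) * c ^ (-(1 + a) - 1)) =
      (Real.log c ^ k / (k.factorial : ℝ)) * c ^ (-(2 + a)) *
        ((k + 1 : ℝ) - (1 + a) * Real.log c) := by
    have h3 : c ^ (-(1 + a) - 1) = c ^ (-(2 + a)) := by congr 1; ring
    have h4 : c⁻¹ * c ^ (-(1 + a)) = c ^ (-(2 + a)) := by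
      rw [← Real.rpow_neg_one, ← Real.rpow_add hc0]
      congr 1; ring
    rw [h3, ← h4, pow_succ]; ring
  rw [e1, abs_mul, abs_of_nonneg (by positivity :
    0 ≤ (Real.log c ^ k / (k.factorial : ℝ)) * c ^ (-(2 + a)))]
  have h5 : |(k + 1 : ℝ) - (1 + a) * Real.log c| ≤ (1 + a) * L := by
    rw [abs_le]
    have h6 : (1 + a) * Real.log c ≤ (1 + a) * L := by
      exact mul_le_mul_of_nonneg_left hlL (by linarith)
    have h7 : 0 ≤ (1 + a) * Real.log c := by positivity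
    have h8 : (0:ℝ) ≤ k := by positivity
    constructor <;> linarith
  have e3 : c ^ a * c ^ (-(2 + a)) = (c⁻¹) ^ 2 := by
    rw [← Real.rpow_add hc0, inv_pow, ← Real.rpow_natCast c 2, ← Real.rpow_neg hc0.le]
    congr 1; push_cast; ring
  have h9 : c⁻¹ ≤ A⁻¹ := inv_anti₀ hA0 hAc
  have h10 : 0 ≤ c⁻¹ := by positivity
  calc (Real.log c ^ k / (k.factorial : ℝ)) * c ^ (-(2 + a)) *
        |(k + 1 : ℝ) - (1 + a) * Real.log c|
      ≤ ((a ^ k)⁻¹ * c ^ a) * c ^ (-(2 + a)) * ((1 + a) * L) := by gcongr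
    _ = (a ^ k)⁻¹ * ((1 + a) * L) * (c ^ a * c ^ (-(2 + a))) := by ring
    _ = (a ^ k)⁻¹ * ((1 + a) * L) * (c⁻¹) ^ 2 := by rw [e3]
    _ ≤ _ := by gcongr

theorem part_sumV {θ A ε : ℝ} (hθ : 0 < θ) (hA : 0 < A) (hε : 0 < ε) (hε1 : ε ≤ 1 / 4)
    (hθε : 28 * θ ≤ ε) :
    ∃ C : ℝ, 1 ≤ C ∧ ∀ (a d β N t : ℝ) (k : ℕ), 0 < a → a ≤ A → 0 < d → d ≤ 1 / 2 →
      1 / 2 + ε ≤ β → β ≤ 1 → 1 - β ≤ d → 1 ≤ N →
      C * (1 + Real.log N) ^ 4 ≤ N ^ (ε / 4 * d) → (k : ℝ) ≤ a * Real.log N →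
      (∀ M : ℕ, N ^ (1 - ε) ≤ M → (M : ℝ) ≤ N → ‖pSum M t‖ < (M : ℝ) ^ (β - ε * d)) →
      a ^ (k + 1) * ‖tPoly θ a k N t‖ < N ^ (-(1 - β) - ε / 4 * d) := by
  refine ⟨2 + A * (5 + A), by nlinarith, fun a d β N t k ha haA hd hd1 hβ hβ1 hβd hN1 hC hk hP => ?_⟩
  have hNpos : 0 < N := by linarith
  have hεd : 0 < ε * d := by positivity
  have hεd1 : ε * d ≤ ε / 2 := by nlinarith
  set L := Real.log N with hL
  have hL0 : 0 ≤ L := Real.log_nonneg hN1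
  have hbig : 2 ≤ N ^ (ε / 4 * d) := by
    refine le_trans ?_ hC
    have h1 : (1:ℝ) ≤ (1 + L) ^ 4 := one_le_pow₀ (by linarith)
    have h2 : 2 ≤ 2 + A * (5 + A) := by nlinarith
    calc (2:ℝ) = 2 * 1 := by ring
      _ ≤ (2 + A * (5 + A)) * (1 + L) ^ 4 := mul_le_mul h2 h1 (by norm_num) (by linarith)
  have hL1 : 1 ≤ L := by
    have h1 : Real.log 2 ≤ Real.log (N ^ (ε / 4 * d)) := Real.log_le_log (by norm_num) hbig
    rw [Real.log_rpow hNpos, ← hL] at h1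
    have h2 : ε / 4 * d ≤ 1 / 32 := by nlinarith
    have h3 : ε / 4 * d * L ≤ 1 / 32 * L := mul_le_mul_of_nonneg_right h2 hL0
    have h4 := Real.log_two_gt_d9
    linarith
  have hbig2 : 2 ≤ N ^ (ε / 4) := by
    refine hbig.trans (Real.rpow_le_rpow_of_exponent_le hN1 ?_)
    nlinarith
  set A0 : ℕ := ⌈N ^ (1 - 7 * θ)⌉₊ with hA0
  set B : ℕ := ⌊N⌋₊ with hB
  have hak : 0 < a ^ k := by positivity
  have hRHS : 0 < N ^ (-(1 - β) - ε / 4 * d) := by positivity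
  rw [tPoly]
  have hBN : (B : ℝ) ≤ N := Nat.floor_le hNpos.le
  rcases Nat.lt_or_ge B A0 with hBA | hAB
  · rw [Finset.Icc_eq_empty (by omega)]
    simpa using hRHS
  -- sizes
  have hAθ : N ^ (1 - 7 * θ) ≤ A0 := Nat.le_ceil _
  have hA1 : N ^ (1 - ε / 4) ≤ A0 := by
    refine le_trans ?_ hAθ
    exact Real.rpow_le_rpow_of_exponent_le hN1 (by linarith)
  have hA1' : (1:ℝ) ≤ A0 := (Real.one_le_rpow hN1 (by linarith)).trans hA1
  have hAn : 1 ≤ A0 := by exact_mod_cast hA1'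
  have hApos : (0:ℝ) < A0 := by linarith
  have hABr : (A0 : ℝ) ≤ B := by exact_mod_cast hAB
  -- `N ^ (1 - ε) + 1 ≤ A0`
  have hA2 : N ^ (1 - ε) + 1 ≤ A0 := by
    refine le_trans ?_ hA1
    have e1 : N ^ (1 - ε / 4) = N ^ (1 - ε) * (N ^ (ε / 4) * N ^ (ε / 2)) := by
      rw [← Real.rpow_add hNpos, ← Real.rpow_add hNpos]
      congr 1; ring
    have e2 : 1 ≤ N ^ (1 - ε) := Real.one_le_rpow hN1 (by linarith)
    have e3 : 1 ≤ N ^ (ε / 2) := Real.one_le_rpow hN1 (by linarith)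
    have e4 : 2 ≤ N ^ (ε / 4) * N ^ (ε / 2) := by nlinarith
    rw [e1]
    nlinarith
  -- the exponent
  set γ : ℝ := 1 - β + ε * d with hγ
  have hγ0 : 0 < γ := by rw [hγ]; linarith
  have hβγ : β - ε * d = 1 - γ := by rw [hγ]; ring
  have hβε : 0 ≤ β - ε * d := by linarith
  -- the prime sums
  set f : ℕ → ℂ := fun n => if n.Prime then (n : ℂ) ^ (-(t * I)) else 0 with hf0
  have hfsum : ∀ m : ℕ, ∑ n ∈ Finset.Icc 1 m, f n =
      ∑ p ∈ (Finset.Icc 1 m).filter Nat.Prime, (p : ℂ) ^ (-(t * I)) := by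
    intro m
    rw [hf0, Finset.sum_filter]
  have hF : ∀ m : ℕ, A0 - 1 ≤ m → m ≤ B → ‖∑ n ∈ Finset.Icc 1 m, f n‖ ≤ (m : ℝ) ^ (β - ε * d) := by
    intro m h1 h2
    have h3 : (m : ℝ) ≤ N := by
      have : (m : ℝ) ≤ B := by exact_mod_cast h2
      linarith
    have h4 : N ^ (1 - ε) ≤ m := by
      have : (A0 : ℝ) ≤ m + 1 := by
        have : A0 ≤ m + 1 := by omega
        exact_mod_cast this
      linarith
    rw [hfsum]
    exact (hP m h4 h3).le
  -- norms of the twists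
  have htw : ∀ n : ℕ, 1 ≤ n → ‖(n : ℂ) ^ (-(t * I))‖ = 1 := by
    intro n hn
    rw [Complex.norm_natCast_cpow_of_pos (by omega)]
    simp
  -- powers
  have hpw : ∀ x : ℝ, (A0 : ℝ) ≤ x → x⁻¹ * x ^ (β - ε * d) ≤ (A0 : ℝ) ^ (-γ) := by
    intro x hx
    have hx0 : 0 < x := by linarith
    rw [← Real.rpow_neg_one, ← Real.rpow_add hx0, show -1 + (β - ε * d) = -γ by rw [hβγ]; ring]
    exact Real.rpow_le_rpow_of_nonpos hApos hx (by linarith)
  -- splitting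
  have hsplit : ∑ n ∈ Finset.Icc A0 B, (dco a k n : ℂ) * (n : ℂ) ^ (-(t * I)) =
      ∑ n ∈ Finset.Icc A0 B, (hf a k n : ℂ) * f n +
      ∑ n ∈ (Finset.Icc A0 B).filter (fun n => ¬ n.Prime),
        (dco a k n : ℂ) * (n : ℂ) ^ (-(t * I)) := by
    rw [Finset.sum_filter, ← Finset.sum_add_distrib]
    refine Finset.sum_congr rfl fun n _ => ?_
    by_cases hn : n.Prime
    · have e : dco a k n = hf a k n := by
        rw [dco, hf, ArithmeticFunction.vonMangoldt_apply_prime hn, pow_succ]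
        ring
      simp [hf0, hn, e]
    · simp [hf0, hn]
  -- first part
  have hlogle : ∀ x : ℝ, 1 ≤ x → x ≤ N → Real.log x ≤ L := fun x h1 h2 =>
    Real.log_le_log (by linarith) h2
  have hpart1 : ‖∑ n ∈ Finset.Icc A0 B, (hf a k n : ℂ) * f n‖ ≤
      (a ^ k)⁻¹ * ((3 + a) * L * (1 + L)) * (A0 : ℝ) ^ (-γ) := by
    rw [abel_icc f (fun n => hf a k n) hAn B hAB]
    have hAγ : 0 < (A0 : ℝ) ^ (-γ) := by positivity
    have t1 : ‖(hf a k B : ℂ) * (∑ n ∈ Finset.Icc 1 B, f n)‖ ≤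
        (a ^ k)⁻¹ * L * (A0 : ℝ) ^ (-γ) := by
      rw [norm_mul, Complex.norm_real, Real.norm_eq_abs]
      have h1 := hf_bound (L := L) ha (by linarith : (1:ℝ) ≤ B) (hlogle _ (by linarith) hBN) k
      have h2 := hF B (by omega) le_rfl
      calc |hf a k B| * ‖∑ n ∈ Finset.Icc 1 B, f n‖
          ≤ ((a ^ k)⁻¹ * L * (B:ℝ)⁻¹) * (B : ℝ) ^ (β - ε * d) :=
            mul_le_mul h1 h2 (norm_nonneg _) (by positivity)
        _ = (a ^ k)⁻¹ * L * ((B:ℝ)⁻¹ * (B : ℝ) ^ (β - ε * d)) := by ring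
        _ ≤ _ := by
            have := hpw B hABr
            gcongr
    have t2 : ‖(hf a k A0 : ℂ) * (∑ n ∈ Finset.Icc 1 (A0 - 1), f n)‖ ≤
        (a ^ k)⁻¹ * L * (A0 : ℝ) ^ (-γ) := by
      rw [norm_mul, Complex.norm_real, Real.norm_eq_abs]
      have h1 := hf_bound (L := L) ha hA1' (hlogle _ (by linarith) (by linarith)) k
      have h2 : ‖∑ n ∈ Finset.Icc 1 (A0 - 1), f n‖ ≤ (A0 : ℝ) ^ (β - ε * d) := by
        refine (hF (A0 - 1) le_rfl (by omega)).trans ?_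
        refine Real.rpow_le_rpow (by positivity) ?_ hβε
        have : A0 - 1 ≤ A0 := by omega
        exact_mod_cast this
      calc |hf a k A0| * ‖∑ n ∈ Finset.Icc 1 (A0 - 1), f n‖
          ≤ ((a ^ k)⁻¹ * L * (A0:ℝ)⁻¹) * (A0 : ℝ) ^ (β - ε * d) :=
            mul_le_mul h1 h2 (norm_nonneg _) (by positivity)
        _ = (a ^ k)⁻¹ * L * ((A0:ℝ)⁻¹ * (A0 : ℝ) ^ (β - ε * d)) := by ring
        _ ≤ _ := by
            have := hpw A0 le_rfl
            gcongr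
    have t3 : ‖∑ m ∈ Finset.Ico A0 B, ((hf a k m : ℂ) - (hf a k ((m + 1 : ℕ) : ℝ) : ℂ)) *
        (∑ n ∈ Finset.Icc 1 m, f n)‖ ≤
        (a ^ k)⁻¹ * ((1 + a) * L) * ((A0 : ℝ) ^ (-γ) * (1 + L)) := by
      calc _ ≤ ∑ m ∈ Finset.Ico A0 B, (a ^ k)⁻¹ * ((1 + a) * L) * (A0 : ℝ) ^ (-γ) * ((m : ℝ))⁻¹ := by
            refine norm_sum_le_of_le _ fun m hm => ?_
            rw [Finset.mem_Ico] at hm
            have hmA : (A0:ℝ) ≤ m := by exact_mod_cast hm.1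
            have hm0 : (0:ℝ) < m := by linarith
            have hm1 : (m:ℝ) + 1 ≤ N := by
              have : m + 1 ≤ B := hm.2
              have : ((m + 1 : ℕ) : ℝ) ≤ B := by exact_mod_cast this
              push_cast at this
              linarith
            rw [norm_mul, ← Complex.ofReal_sub, Complex.norm_real, Real.norm_eq_abs]
            push_cast
            calc |hf a k m - hf a k (m + 1)| * ‖∑ n ∈ Finset.Icc 1 m, f n‖
                ≤ ((a ^ k)⁻¹ * ((1 + a) * L) * ((m:ℝ)⁻¹) ^ 2) * (m : ℝ) ^ (β - ε * d) :=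
                  mul_le_mul (hf_diff ha hL1 (by linarith) hk le_rfl
                    (hlogle _ (by linarith) hm1)) (hF m (by omega) hm.2.le) (norm_nonneg _)
                    (by positivity)
              _ = (a ^ k)⁻¹ * ((1 + a) * L) * ((m:ℝ)⁻¹ * (m : ℝ) ^ (β - ε * d)) * (m:ℝ)⁻¹ := by
                  ring
              _ ≤ _ := by
                  have := hpw m hmA
                  gcongr
        _ = (a ^ k)⁻¹ * ((1 + a) * L) * (A0 : ℝ) ^ (-γ) * ∑ m ∈ Finset.Ico A0 B, ((m : ℝ))⁻¹ := by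
            rw [Finset.mul_sum]
        _ ≤ (a ^ k)⁻¹ * ((1 + a) * L) * (A0 : ℝ) ^ (-γ) * (1 + L) := by
            have hharm : ∑ m ∈ Finset.Ico A0 B, ((m : ℝ))⁻¹ ≤ 1 + L := by
              have h1 := harmonic_le_one_add_log B
              have h2 : ((harmonic B : ℚ) : ℝ) = ∑ m ∈ Finset.Icc 1 B, ((m : ℝ))⁻¹ := by
                rw [harmonic_eq_sum_Icc]
                push_cast
                rfl
              have h3 : ∑ m ∈ Finset.Ico A0 B, ((m : ℝ))⁻¹ ≤ ∑ m ∈ Finset.Icc 1 B, ((m : ℝ))⁻¹ := by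
                apply Finset.sum_le_sum_of_subset_of_nonneg
                · intro m hm
                  rw [Finset.mem_Ico] at hm
                  rw [Finset.mem_Icc]
                  omega
                · intro m _ _
                  positivity
              have h4 : Real.log B ≤ L := hlogle _ (by linarith) hBN
              rw [h2] at h1
              linarith
            gcongr
        _ = _ := by ring
    refine (norm_add_le _ _).trans ?_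
    refine (add_le_add (norm_sub_le _ _) le_rfl).trans ?_
    calc _ ≤ (a ^ k)⁻¹ * L * (A0 : ℝ) ^ (-γ) + (a ^ k)⁻¹ * L * (A0 : ℝ) ^ (-γ) +
          (a ^ k)⁻¹ * ((1 + a) * L) * ((A0 : ℝ) ^ (-γ) * (1 + L)) :=
          add_le_add (add_le_add t1 t2) t3
      _ ≤ (a ^ k)⁻¹ * L * (A0 : ℝ) ^ (-γ) * (1 + L) + (a ^ k)⁻¹ * L * (A0 : ℝ) ^ (-γ) * (1 + L) +
          (a ^ k)⁻¹ * ((1 + a) * L) * ((A0 : ℝ) ^ (-γ) * (1 + L)) := by
          have h0 : 0 ≤ (a ^ k)⁻¹ * L * (A0 : ℝ) ^ (-γ) := by positivity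
          have h1 : (a ^ k)⁻¹ * L * (A0 : ℝ) ^ (-γ) ≤ (a ^ k)⁻¹ * L * (A0 : ℝ) ^ (-γ) * (1 + L) :=
            le_mul_of_one_le_right h0 (by linarith)
          linarith
      _ = _ := by ring
  -- second part
  have hpart2 : ‖∑ n ∈ (Finset.Icc A0 B).filter (fun n => ¬ n.Prime),
        (dco a k n : ℂ) * (n : ℂ) ^ (-(t * I))‖ ≤
      (a ^ k)⁻¹ * (2 * L) * (N ^ (1 / 2 : ℝ) * (A0 : ℝ)⁻¹) := by
    have hpsi := Chebyshev.psi_sub_theta_le hN1
    rw [Chebyshev.psi_sub_theta_eq_sum_not_prime] at hpsi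
    calc _ ≤ ∑ n ∈ (Finset.Icc A0 B).filter (fun n => ¬ n.Prime),
          (a ^ k)⁻¹ * (A0:ℝ)⁻¹ * ArithmeticFunction.vonMangoldt n := by
          refine norm_sum_le_of_le _ fun n hn => ?_
          rw [Finset.mem_filter, Finset.mem_Icc] at hn
          have hn1 : 1 ≤ n := hAn.trans hn.1.1
          have hnA : (A0:ℝ) ≤ n := by exact_mod_cast hn.1.1
          have hn1r : (1:ℝ) ≤ n := by exact_mod_cast hn1
          have hn0 : (0:ℝ) < n := by linarith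
          have hdn : 0 ≤ dco a k n := dco_nonneg a k n
          rw [norm_mul, htw n hn1, mul_one, Complex.norm_real, Real.norm_of_nonneg hdn, dco]
          have h1 := log_pow_le ha hn1r k
          have e3 : (n:ℝ) ^ a * (n:ℝ) ^ (-(1 + a)) = (n:ℝ)⁻¹ := by
            rw [← Real.rpow_add hn0, ← Real.rpow_neg_one]
            congr 1; ring
          have hΛ : 0 ≤ ArithmeticFunction.vonMangoldt n := ArithmeticFunction.vonMangoldt_nonneg
          calc ArithmeticFunction.vonMangoldt n * (Real.log n ^ k / (k.factorial : ℝ)) *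
                (n : ℝ) ^ (-(1 + a))
              ≤ ArithmeticFunction.vonMangoldt n * ((a ^ k)⁻¹ * (n:ℝ) ^ a) *
                (n : ℝ) ^ (-(1 + a)) := by gcongr
            _ = (a ^ k)⁻¹ * ((n:ℝ) ^ a * (n:ℝ) ^ (-(1 + a))) *
                ArithmeticFunction.vonMangoldt n := by ring
            _ = (a ^ k)⁻¹ * (n:ℝ)⁻¹ * ArithmeticFunction.vonMangoldt n := by rw [e3]
            _ ≤ _ := by
              have : (n:ℝ)⁻¹ ≤ (A0:ℝ)⁻¹ := inv_anti₀ hApos hnA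
              gcongr
      _ = (a ^ k)⁻¹ * (A0:ℝ)⁻¹ * ∑ n ∈ (Finset.Icc A0 B).filter (fun n => ¬ n.Prime),
          ArithmeticFunction.vonMangoldt n := by rw [Finset.mul_sum]
      _ ≤ (a ^ k)⁻¹ * (A0:ℝ)⁻¹ * (2 * √N * Real.log N) := by
          gcongr
          refine le_trans ?_ hpsi
          apply Finset.sum_le_sum_of_subset_of_nonneg
          · intro n hn
            rw [Finset.mem_filter, Finset.mem_Icc] at hn
            rw [Finset.mem_filter, Finset.mem_Ioc]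
            exact ⟨⟨by omega, hn.1.2⟩, hn.2⟩
          · intro n _ _
            exact ArithmeticFunction.vonMangoldt_nonneg
      _ = _ := by rw [Real.sqrt_eq_rpow]; ring
  -- the end
  have hAinv : (A0:ℝ)⁻¹ ≤ N ^ (-(1 - ε / 4)) := by
    rw [Real.rpow_neg hNpos.le]
    exact inv_anti₀ (by positivity) hA1
  have hs1 : (A0 : ℝ) ^ (-γ) ≤ N ^ (-(1 - β) - ε / 2 * d) := by
    have h1 : (A0 : ℝ) ^ (-γ) ≤ (N ^ (1 - 7 * θ)) ^ (-γ) :=
      Real.rpow_le_rpow_of_nonpos (by positivity) hAθ (by linarith)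
    refine h1.trans ?_
    rw [← Real.rpow_mul hNpos.le]
    refine Real.rpow_le_rpow_of_exponent_le hN1 ?_
    have h2 : γ ≤ 5 / 4 * d := by rw [hγ]; nlinarith
    have h3 : 7 * θ * γ ≤ ε / 4 * (5 / 4 * d) :=
      mul_le_mul (by linarith) h2 hγ0.le (by linarith)
    have h4 : (1 - 7 * θ) * -γ = -(1 - β) - ε * d + 7 * θ * γ := by rw [hγ]; ring
    rw [h4]
    nlinarith
  have hs2 : N ^ (1 / 2 : ℝ) * (A0 : ℝ)⁻¹ ≤ N ^ (-(1 - β) - ε / 2 * d) := by
    calc N ^ (1 / 2 : ℝ) * (A0 : ℝ)⁻¹ ≤ N ^ (1 / 2 : ℝ) * N ^ (-(1 - ε / 4)) := by gcongr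
      _ = N ^ (1 / 2 - (1 - ε / 4) : ℝ) := by rw [← Real.rpow_add hNpos]; congr 1
      _ ≤ _ := Real.rpow_le_rpow_of_exponent_le hN1 (by nlinarith)
  have hsum : ‖∑ n ∈ Finset.Icc A0 B, (dco a k n : ℂ) * (n : ℂ) ^ (-(t * I))‖ ≤
      (a ^ k)⁻¹ * ((5 + a) * (1 + L) ^ 2) * N ^ (-(1 - β) - ε / 2 * d) := by
    have hX : 0 < N ^ (-(1 - β) - ε / 2 * d) := by positivity
    rw [hsplit]
    refine (norm_add_le _ _).trans ?_
    calc _ ≤ (a ^ k)⁻¹ * ((3 + a) * L * (1 + L)) * (A0 : ℝ) ^ (-γ) +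
          (a ^ k)⁻¹ * (2 * L) * (N ^ (1 / 2 : ℝ) * (A0 : ℝ)⁻¹) := add_le_add hpart1 hpart2
      _ ≤ (a ^ k)⁻¹ * ((3 + a) * L * (1 + L)) * N ^ (-(1 - β) - ε / 2 * d) +
          (a ^ k)⁻¹ * (2 * L) * N ^ (-(1 - β) - ε / 2 * d) := by
          gcongr
      _ = (a ^ k)⁻¹ * ((3 + a) * L * (1 + L) + 2 * L) * N ^ (-(1 - β) - ε / 2 * d) := by ring
      _ ≤ _ := by
          have h1 : (3 + a) * L * (1 + L) + 2 * L ≤ (5 + a) * (1 + L) ^ 2 := by nlinarith
          gcongr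
  have hfin : a * ((5 + a) * (1 + L) ^ 2) * N ^ (-(1 - β) - ε / 2 * d) <
      N ^ (-(1 - β) - ε / 4 * d) := by
    have e1 : N ^ (-(1 - β) - ε / 4 * d) = N ^ (ε / 4 * d) * N ^ (-(1 - β) - ε / 2 * d) := by
      rw [← Real.rpow_add hNpos]; congr 1; ring
    rw [e1]
    have h0 : 0 < N ^ (-(1 - β) - ε / 2 * d) := by positivity
    have h1 : a * (5 + a) ≤ A * (5 + A) := by nlinarith
    have h2 : (1 + L) ^ 2 ≤ (1 + L) ^ 4 := pow_le_pow_right₀ (by linarith) (by norm_num)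
    have h3 : (0:ℝ) < (1 + L) ^ 4 := by positivity
    have e2 : a * ((5 + a) * (1 + L) ^ 2) < N ^ (ε / 4 * d) := by
      refine lt_of_lt_of_le ?_ hC
      calc a * ((5 + a) * (1 + L) ^ 2) = (a * (5 + a)) * (1 + L) ^ 2 := by ring
        _ ≤ (A * (5 + A)) * (1 + L) ^ 4 := mul_le_mul h1 h2 (by positivity) (by positivity)
        _ < (2 + A * (5 + A)) * (1 + L) ^ 4 := by nlinarith
    exact mul_lt_mul_of_pos_right e2 h0
  calc a ^ (k + 1) * ‖∑ n ∈ Finset.Icc A0 B, (dco a k n : ℂ) * (n : ℂ) ^ (-(t * I))‖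
      ≤ a ^ (k + 1) * ((a ^ k)⁻¹ * ((5 + a) * (1 + L) ^ 2) * N ^ (-(1 - β) - ε / 2 * d)) := by
        gcongr
    _ = a * ((5 + a) * (1 + L) ^ 2) * N ^ (-(1 - β) - ε / 2 * d) := by
        rw [pow_succ]; field_simp
    _ < _ := hfin

end Pool.Agent.H76.SV
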