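import Mathlib
import Pool.Agent.H52.Unc.Defs

/-!
# Uniform version of the density hypothesis for uncrowded zeros: definitions
-/

set_option autoImplicit false

open Complex

namespace Pool.Agent.H76.SV

open Pool.Agent.H76.CR

/-- the block `∑_{M ≤ n ≤ B} Λ(n) (log n)^k / k! n^(-1-a-it)` -/
noncomputable def bl (a : ℝ) (k M B : ℕ) (t : ℝ) : ℂ :=
  ∑ n ∈ Finset.Icc M B, (dco a k n : ℂ) * (n : ℂ) ^ (-(t * I))

end Pool.Agent.H76.SV
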