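import Mathlib
import Pool.Agent.H76.CR.Tail

/-!
# TailV: the tails of `∑ dco a k n`, uniform in `a ≤ A`

Copy of `tail_gen` (`H76/CR/Tail.lean`, with its private lemmas `pow_fact_le`, `dco_le`, ...): the
constant there is `a * ∑' n, dco (a θ^2/4) 0 n + 1`, and
`∑' n, dco b 0 n = ∑ Λ(n) n^(-1-b) ≤ C0 (1 + 1/b)` uniformly in `b > 0` (for instance
`Λ(n) ≤ log n` is not enough; use `-ζ'/ζ(1+b) ≤ C0 (1 + 1/b)` for `0 < b ≤ B`: the function
`b ↦ b (-ζ'/ζ)(1+b)` is continuous on `[0, B]` (`tendsto_riemannZeta_sub_one_div`, or the local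
expansion of `zetaPole`), or partial summation from Chebyshev `ψ(x) ≤ 2x`).  So the constant is at
most `C0 (A + 4/θ^2) + 1`.  About 120 lines.
-/

set_option autoImplicit false

namespace Pool.Agent.H76.SV

open Pool.Agent.H76.CR

private theorem pow_fact_le {x l : ℝ} (hx : 0 ≤ x) (hl : 0 < l) (k : ℕ) :
    x ^ k / (k.factorial : ℝ) ≤ Real.exp (l * x - k * Real.log l) := by
  have h := Real.pow_div_factorial_le_exp (l * x) (by positivity) k
  have hlk : (0 : ℝ) < l ^ k := by positivity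
  have e1 : Real.exp (l * x - k * Real.log l) = Real.exp (l * x) / l ^ k := by
    rw [Real.exp_sub]
    congr 1
    rw [mul_comm, Real.exp_mul, Real.exp_log hl, Real.rpow_natCast]
  rw [e1, le_div_iff₀ hlk]
  calc x ^ k / (k.factorial : ℝ) * l ^ k = (l * x) ^ k / (k.factorial : ℝ) := by
        rw [mul_pow]; ring
    _ ≤ Real.exp (l * x) := h

private theorem dco_le {θ a : ℝ} (ha : 0 < a) (k0 k n : ℕ) (hn : 1 ≤ n) {l : ℝ}
    (hl : 0 < l)
    (h : l * (a * Real.log n) - k * Real.log l - a * Real.log n ≤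
      -(θ ^ 2 * k0) - θ ^ 2 / 4 * (a * Real.log n)) :
    dco a k n ≤ Real.exp (-(θ ^ 2 * k0)) / a ^ k * dco (a * θ ^ 2 / 4) 0 n := by
  have hn0 : (0 : ℝ) < n := by exact_mod_cast hn
  have hL : 0 ≤ Real.log n := Real.log_nonneg (by exact_mod_cast hn)
  have hΛ : 0 ≤ ArithmeticFunction.vonMangoldt n := ArithmeticFunction.vonMangoldt_nonneg
  have hak : (0 : ℝ) < a ^ k := by positivity
  unfold dco
  rw [Real.rpow_def_of_pos hn0, Real.rpow_def_of_pos hn0]
  simp only [pow_zero, Nat.factorial_zero, Nat.cast_one, div_one, mul_one]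
  have key : Real.log n ^ k / (k.factorial : ℝ) * Real.exp (Real.log n * -(1 + a)) ≤
      Real.exp (-(θ ^ 2 * k0)) / a ^ k * Real.exp (Real.log n * -(1 + a * θ ^ 2 / 4)) := by
    have h1 := pow_fact_le (x := a * Real.log n) (by positivity) hl k
    have h2 : Real.log n ^ k / (k.factorial : ℝ) =
        (a * Real.log n) ^ k / (k.factorial : ℝ) / a ^ k := by
      rw [mul_pow]; field_simp
    rw [h2]
    have h3 : (a * Real.log n) ^ k / (k.factorial : ℝ) / a ^ k *
        Real.exp (Real.log n * -(1 + a)) ≤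
        Real.exp (l * (a * Real.log n) - k * Real.log l) / a ^ k *
          Real.exp (Real.log n * -(1 + a)) := by
      gcongr
    refine h3.trans ?_
    have h4 : Real.exp (l * (a * Real.log n) - k * Real.log l) / a ^ k *
        Real.exp (Real.log n * -(1 + a)) =
        Real.exp (l * (a * Real.log n) - k * Real.log l + Real.log n * -(1 + a)) / a ^ k := by
      rw [Real.exp_add]; ring
    have h5 : Real.exp (-(θ ^ 2 * k0)) / a ^ k * Real.exp (Real.log n * -(1 + a * θ ^ 2 / 4)) =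
        Real.exp (-(θ ^ 2 * k0) + Real.log n * -(1 + a * θ ^ 2 / 4)) / a ^ k := by
      rw [Real.exp_add]; ring
    rw [h4, h5]
    refine div_le_div_of_nonneg_right (Real.exp_le_exp.mpr ?_) hak.le
    have e1 : Real.log n * -(1 + a) = -Real.log n - a * Real.log n := by ring
    have e2 : Real.log n * -(1 + a * θ ^ 2 / 4) = -Real.log n - θ ^ 2 / 4 * (a * Real.log n) := by
      ring
    rw [e1, e2]
    linarith
  calc ArithmeticFunction.vonMangoldt n * (Real.log n ^ k / (k.factorial : ℝ)) *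
        Real.exp (Real.log n * -(1 + a))
      = ArithmeticFunction.vonMangoldt n * (Real.log n ^ k / (k.factorial : ℝ) *
        Real.exp (Real.log n * -(1 + a))) := by ring
    _ ≤ ArithmeticFunction.vonMangoldt n * (Real.exp (-(θ ^ 2 * k0)) / a ^ k *
        Real.exp (Real.log n * -(1 + a * θ ^ 2 / 4))) := by gcongr
    _ = _ := by ring

/-- The tail bound with an explicit constant. -/
private theorem tail_exp {θ a : ℝ} (hθ : 0 < θ) (hθ1 : θ ≤ 1 / 8) (ha : 0 < a)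
    (k0 k : ℕ) (N1 N2 : ℝ) (hk0 : k0 ≤ k) (hk1 : (k : ℝ) ≤ (1 + θ) * k0) (_hN1 : 0 < N1)
    (hN2 : 0 < N2) (hlo : a * Real.log N1 ≤ (1 - 2 * θ) * k0)
    (hup : (1 + 4 * θ) * k0 ≤ a * Real.log N2)
    (F : Finset ℕ) (hF : ∀ n : ℕ, N1 ≤ n → (n : ℝ) ≤ N2 → n ∈ F) :
    ∑' n : ℕ, (if n ∈ F then 0 else dco a k n) ≤
      (a * ∑' n : ℕ, dco (a * θ ^ 2 / 4) 0 n) * Real.exp (-(θ ^ 2 * k0)) / a ^ (k + 1) := by
  have he : 0 < a * θ ^ 2 / 4 := by positivity
  have hS := summable_dco he 0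
  have hS0 : 0 ≤ ∑' n : ℕ, dco (a * θ ^ 2 / 4) 0 n := tsum_nonneg (fun n => dco_nonneg _ _ _)
  have hk0' : (k0 : ℝ) ≤ k := by exact_mod_cast hk0
  have hk0n : (0 : ℝ) ≤ k0 := Nat.cast_nonneg _
  have hak : (0 : ℝ) < a ^ k := by positivity
  have hpt : ∀ n : ℕ, (if n ∈ F then 0 else dco a k n) ≤
      Real.exp (-(θ ^ 2 * k0)) / a ^ k * dco (a * θ ^ 2 / 4) 0 n := by
    intro n
    have hnn : 0 ≤ Real.exp (-(θ ^ 2 * k0)) / a ^ k * dco (a * θ ^ 2 / 4) 0 n :=
      mul_nonneg (by positivity) (dco_nonneg _ _ _)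
    by_cases hnF : n ∈ F
    · rw [if_pos hnF]; exact hnn
    rw [if_neg hnF]
    rcases Nat.eq_zero_or_pos n with hn | hn
    · subst hn
      have : dco a k 0 = 0 := by simp [dco]
      rw [this]; exact hnn
    have hn0 : (0 : ℝ) < n := by exact_mod_cast hn
    by_cases hc : (n : ℝ) < N1
    · -- lower part
      have hx : a * Real.log n ≤ (1 - 2 * θ) * k0 := by
        refine le_trans ?_ hlo
        have := Real.log_le_log hn0 hc.le
        gcongr
      refine dco_le ha k0 k n hn (l := 1 + 2 * θ) (by positivity) ?_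
      have hlog : 2 * θ - 2 * θ ^ 2 ≤ Real.log (1 + 2 * θ) := by
        have h1 := Real.le_log_one_add_of_nonneg (x := 2 * θ) (by positivity)
        refine le_trans ?_ h1
        rw [le_div_iff₀ (by positivity)]
        nlinarith [pow_pos hθ 3]
      have h2 : (2 * θ - 2 * θ ^ 2) * k0 ≤ k * Real.log (1 + 2 * θ) := by
        have h0 : 0 ≤ 2 * θ - 2 * θ ^ 2 := by nlinarith
        calc (2 * θ - 2 * θ ^ 2) * k0 ≤ (2 * θ - 2 * θ ^ 2) * k := by gcongr
          _ = k * (2 * θ - 2 * θ ^ 2) := by ring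
          _ ≤ k * Real.log (1 + 2 * θ) := by gcongr
      have h3 : (2 * θ + θ ^ 2 / 4) * (a * Real.log n) ≤ (2 * θ + θ ^ 2 / 4) * ((1 - 2 * θ) * k0) := by
        gcongr
      have h4 : 0 ≤ θ ^ 2 * k0 := by positivity
      have h5 : 0 ≤ θ ^ 3 * k0 := by positivity
      nlinarith [h2, h3, h4, h5]
    · -- upper part
      have hc2 : N2 < n := by
        by_contra hcon
        exact hnF (hF n (not_lt.mp hc) (not_lt.mp hcon))
      have hx : (1 + 4 * θ) * k0 ≤ a * Real.log n := by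
        refine le_trans hup ?_
        have := Real.log_le_log hN2 hc2.le
        gcongr
      have hl : 0 < 1 - θ := by linarith
      refine dco_le ha k0 k n hn (l := 1 - θ) hl ?_
      have hlog : -Real.log (1 - θ) ≤ θ + 8 / 7 * θ ^ 2 := by
        have h1 := Real.one_sub_inv_le_log_of_pos hl
        have h2 : (1 - θ)⁻¹ ≤ 1 + θ + 8 / 7 * θ ^ 2 := by
          rw [inv_le_comm₀ hl (by positivity), inv_le_iff_one_le_mul₀ (by positivity)]
          nlinarith [pow_pos hθ 2, pow_pos hθ 3]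
        linarith
      have h2 : -(k * Real.log (1 - θ)) ≤ (1 + θ) * k0 * (θ + 8 / 7 * θ ^ 2) := by
        have h0 : 0 ≤ -Real.log (1 - θ) := by
          have := Real.log_nonpos hl.le (by linarith)
          linarith
        calc -(k * Real.log (1 - θ)) = k * (-Real.log (1 - θ)) := by ring
          _ ≤ (1 + θ) * k0 * (-Real.log (1 - θ)) := by gcongr
          _ ≤ (1 + θ) * k0 * (θ + 8 / 7 * θ ^ 2) := by gcongr
      have h3 : (θ - θ ^ 2 / 4) * ((1 + 4 * θ) * k0) ≤ (θ - θ ^ 2 / 4) * (a * Real.log n) := by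
        have : 0 ≤ θ - θ ^ 2 / 4 := by nlinarith
        gcongr
      have h4 : 0 ≤ θ ^ 2 * k0 := by positivity
      have h5 : θ ^ 3 * k0 ≤ 1 / 8 * (θ ^ 2 * k0) := by
        have : θ ^ 3 * k0 = θ * (θ ^ 2 * k0) := by ring
        rw [this]; gcongr
      nlinarith [h2, h3, h4, h5]
  have hsumR : Summable (fun n : ℕ => Real.exp (-(θ ^ 2 * k0)) / a ^ k *
      dco (a * θ ^ 2 / 4) 0 n) := hS.mul_left _
  have hsumL : Summable (fun n : ℕ => if n ∈ F then 0 else dco a k n) := by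
    refine Summable.of_nonneg_of_le (fun n => ?_) hpt hsumR
    split_ifs
    · exact le_rfl
    · exact dco_nonneg _ _ _
  calc ∑' n : ℕ, (if n ∈ F then 0 else dco a k n)
      ≤ ∑' n : ℕ, Real.exp (-(θ ^ 2 * k0)) / a ^ k * dco (a * θ ^ 2 / 4) 0 n :=
        hsumL.tsum_le_tsum hpt hsumR
    _ = Real.exp (-(θ ^ 2 * k0)) / a ^ k * ∑' n : ℕ, dco (a * θ ^ 2 / 4) 0 n := tsum_mul_left
    _ = a * (∑' n : ℕ, dco (a * θ ^ 2 / 4) 0 n) * Real.exp (-(θ ^ 2 * k0)) / a ^ (k + 1) := by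
        rw [pow_succ]; field_simp
        try ring

/-- `∑ Λ(n) n^(-1-b)` over `n < 2^J` by dyadic blocks (Chebyshev). -/
private theorem dco0_dyadic {b : ℝ} (hb : 0 < b) (J : ℕ) :
    ∑ n ∈ Finset.range (2 ^ J), dco b 0 n ≤
      ∑ j ∈ Finset.range J, 2 * (Real.log 4 + 4) * ((2 : ℝ) ^ (-b)) ^ j := by
  induction J with
  | zero => simp [dco]
  | succ J ih =>
    rw [Finset.sum_range_succ, Finset.range_eq_Ico, ← Finset.sum_Ico_consecutive (fun n => dco b 0 n)
      (Nat.zero_le (2 ^ J)) (Nat.pow_le_pow_right (by norm_num) (Nat.le_succ J)),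
      ← Finset.range_eq_Ico]
    refine add_le_add ih ?_
    have hpos : (0 : ℝ) < (2 : ℝ) ^ J := by positivity
    have h1 : ∀ n ∈ Finset.Ico (2 ^ J) (2 ^ (J + 1)), dco b 0 n ≤
        ((2 : ℝ) ^ J) ^ (-(1 + b)) * ArithmeticFunction.vonMangoldt n := by
      intro n hn
      rw [Finset.mem_Ico] at hn
      have hn1 : ((2 : ℝ) ^ J) ≤ n := by exact_mod_cast hn.1
      unfold dco
      simp only [pow_zero, Nat.factorial_zero, Nat.cast_one, div_one, mul_one]
      rw [mul_comm]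
      refine mul_le_mul_of_nonneg_right ?_ ArithmeticFunction.vonMangoldt_nonneg
      exact Real.rpow_le_rpow_of_nonpos hpos hn1 (by linarith)
    refine (Finset.sum_le_sum h1).trans ?_
    rw [← Finset.mul_sum]
    have h2 : ∑ n ∈ Finset.Ico (2 ^ J) (2 ^ (J + 1)), ArithmeticFunction.vonMangoldt n ≤
        Chebyshev.psi ((2 : ℝ) ^ (J + 1)) := by
      rw [Chebyshev.psi_eq_sum_Icc]
      refine Finset.sum_le_sum_of_subset_of_nonneg ?_ fun _ _ _ =>
        ArithmeticFunction.vonMangoldt_nonneg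
      intro n hn
      rw [Finset.mem_Ico] at hn
      rw [Finset.mem_Icc]
      refine ⟨Nat.zero_le _, ?_⟩
      rw [Nat.le_floor_iff (by positivity)]
      have : n ≤ 2 ^ (J + 1) := hn.2.le
      exact_mod_cast this
    have h3 : Chebyshev.psi ((2 : ℝ) ^ (J + 1)) ≤ (Real.log 4 + 4) * (2 : ℝ) ^ (J + 1) :=
      Chebyshev.psi_le_const_mul_self (by positivity)
    calc ((2 : ℝ) ^ J) ^ (-(1 + b)) * ∑ n ∈ Finset.Ico (2 ^ J) (2 ^ (J + 1)),
          ArithmeticFunction.vonMangoldt n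
        ≤ ((2 : ℝ) ^ J) ^ (-(1 + b)) * ((Real.log 4 + 4) * (2 : ℝ) ^ (J + 1)) := by
          refine mul_le_mul_of_nonneg_left (h2.trans h3) ?_
          positivity
      _ = 2 * (Real.log 4 + 4) * (((2 : ℝ) ^ J) ^ (-(1 + b)) * (2 : ℝ) ^ J) := by
          rw [pow_succ]; ring
      _ = 2 * (Real.log 4 + 4) * ((2 : ℝ) ^ (-b)) ^ J := by
          congr 1
          have e1 : ((2 : ℝ) ^ J) ^ (-(1 + b)) * (2 : ℝ) ^ J = ((2 : ℝ) ^ J) ^ (-b) := by
            have e2 : -(1 + b) = -b - 1 := by ring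
            rw [e2, Real.rpow_sub_one hpos.ne']
            field_simp
          rw [e1, ← Real.rpow_natCast, ← Real.rpow_natCast, ← Real.rpow_mul (by norm_num),
            ← Real.rpow_mul (by norm_num)]
          congr 1
          ring

private theorem dco0_bound {b : ℝ} (hb : 0 < b) :
    b * ∑' n : ℕ, dco b 0 n ≤ 2 * (Real.log 4 + 4) * (1 / Real.log 2 + b) := by
  have hl2 : 0 < Real.log 2 := Real.log_pos (by norm_num)
  have hl4 : 0 < Real.log 4 := Real.log_pos (by norm_num)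
  set r : ℝ := (2 : ℝ) ^ (-b) with hr
  have hr0 : 0 < r := by positivity
  have h2b : 1 + b * Real.log 2 ≤ (2 : ℝ) ^ b := by
    rw [Real.rpow_def_of_pos (by norm_num)]
    have := Real.add_one_le_exp (Real.log 2 * b)
    linarith
  have hrinv : r * (2 : ℝ) ^ b = 1 := by
    rw [hr, ← Real.rpow_add (by norm_num)]
    simp
  have hbl : 0 < b * Real.log 2 := by positivity
  have hr1 : r < 1 := by
    by_contra hcon
    have h1 : 1 ≤ r := not_lt.mp hcon
    nlinarith
  have hgeo : ∀ J : ℕ, ∑ j ∈ Finset.range J, r ^ j ≤ 1 / (1 - r) := by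
    intro J
    have h1 : 0 < 1 - r := by linarith
    rw [le_div_iff₀ h1, mul_comm]
    have h2 := mul_neg_geom_sum r J
    rw [h2]
    have : 0 ≤ r ^ J := by positivity
    linarith
  have hsum : ∑' n : ℕ, dco b 0 n ≤ 2 * (Real.log 4 + 4) * (1 / (1 - r)) := by
    refine Real.tsum_le_of_sum_range_le (fun n => dco_nonneg b 0 n) fun N => ?_
    have h1 : ∑ n ∈ Finset.range N, dco b 0 n ≤ ∑ n ∈ Finset.range (2 ^ N), dco b 0 n := by
      refine Finset.sum_le_sum_of_subset_of_nonneg ?_ fun _ _ _ => dco_nonneg _ _ _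
      refine Finset.range_subset_range.mpr ?_
      exact Nat.lt_two_pow_self.le
    refine h1.trans ((dco0_dyadic hb N).trans ?_)
    rw [← Finset.mul_sum]
    exact mul_le_mul_of_nonneg_left (hgeo N) (by positivity)
  have hb1 : b * (1 / (1 - r)) ≤ 1 / Real.log 2 + b := by
    have h1 : 0 < 1 - r := by linarith
    rw [mul_one_div, div_le_iff₀ h1]
    have h3 : r ≤ 1 / (1 + b * Real.log 2) := by
      rw [le_div_iff₀ (by positivity)]
      nlinarith
    have h4 : b * Real.log 2 / (1 + b * Real.log 2) ≤ 1 - r := by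
      have e : b * Real.log 2 / (1 + b * Real.log 2) = 1 - 1 / (1 + b * Real.log 2) := by
        field_simp
        ring
      rw [e]; linarith
    calc b = (1 / Real.log 2 + b) * (b * Real.log 2 / (1 + b * Real.log 2)) := by
          field_simp
      _ ≤ (1 / Real.log 2 + b) * (1 - r) := by gcongr
  calc b * ∑' n : ℕ, dco b 0 n ≤ b * (2 * (Real.log 4 + 4) * (1 / (1 - r))) := by gcongr
    _ = 2 * (Real.log 4 + 4) * (b * (1 / (1 - r))) := by ring
    _ ≤ _ := by gcongr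

theorem tailV {θ A : ℝ} (hθ : 0 < θ) (hθ1 : θ ≤ 1 / 8) (hA : 0 < A) :
    ∃ C : ℝ, 0 < C ∧ ∀ (a : ℝ) (k0 k : ℕ) (N1 N2 : ℝ), 0 < a → a ≤ A → k0 ≤ k →
      (k : ℝ) ≤ (1 + θ) * k0 → 0 < N1 → 0 < N2 → a * Real.log N1 ≤ (1 - 2 * θ) * k0 →
      (1 + 4 * θ) * k0 ≤ a * Real.log N2 →
      ∀ F : Finset ℕ, (∀ n : ℕ, N1 ≤ n → (n : ℝ) ≤ N2 → n ∈ F) →
      ∑' n : ℕ, (if n ∈ F then 0 else dco a k n) ≤ C * Real.exp (-(θ ^ 2 * k0)) / a ^ (k + 1) := by
  have hl2 : 0 < Real.log 2 := Real.log_pos (by norm_num)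
  have hl4 : 0 < Real.log 4 := Real.log_pos (by norm_num)
  refine ⟨4 / θ ^ 2 * (2 * (Real.log 4 + 4) * (1 / Real.log 2 + A * θ ^ 2 / 4)), by positivity, ?_⟩
  intro a k0 k N1 N2 ha haA hk0 hk1 hN1 hN2 hlo hup F hF
  refine (tail_exp hθ hθ1 ha k0 k N1 N2 hk0 hk1 hN1 hN2 hlo hup F hF).trans ?_
  have hb : 0 < a * θ ^ 2 / 4 := by positivity
  have h1 := dco0_bound hb
  have h2 : a * ∑' n : ℕ, dco (a * θ ^ 2 / 4) 0 n ≤
      4 / θ ^ 2 * (2 * (Real.log 4 + 4) * (1 / Real.log 2 + A * θ ^ 2 / 4)) := by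
    calc a * ∑' n : ℕ, dco (a * θ ^ 2 / 4) 0 n
        = 4 / θ ^ 2 * (a * θ ^ 2 / 4 * ∑' n : ℕ, dco (a * θ ^ 2 / 4) 0 n) := by
          field_simp
      _ ≤ 4 / θ ^ 2 * (2 * (Real.log 4 + 4) * (1 / Real.log 2 + a * θ ^ 2 / 4)) := by gcongr
      _ ≤ _ := by gcongr
  gcongr

end Pool.Agent.H76.SV
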