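import Mathlib
import Pool.Agent.H76.SV.Defs
import Pool.Agent.H76.SV.DetectV
import Pool.Agent.H76.SV.TailV

/-!
# SeenV: an uncrowded zero is seen by the primes at the scale `N`, uniform in `σ`

Near-copy of `H52/Unc/SeenU.lean` (and `H76/CR/Seen.lean`); `a = L (1-σ)`, `ρ = β + iγ`.
`κ = min (min (η/8) (θ/(10 L))) (min (θ/2) (1/8))` (so `8κ ≤ η`, `5κL ≤ θ/2`, `κ ≤ θ`).
`k0` a natural number with `(1-7θ) a log N ≤ (1-2θ) k0` and `(1+4θ) k0 ≤ a log N`; it exists since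
`(1-7θ)(1+4θ) = 1 - 3θ - 28θ^2 < 1 - 2θ` and `a log N = L (1-σ) log N ≥ L C` is large.
`Λ` of the theorem: `log (1/a) ≤ log (log N) ≤ log N ≤ Λ` because `1/a ≤ 1/(1-σ) ≤ log N`
(from `C ≤ (1-σ) log N`, `L ≥ 1`), and `log(|γ|+2) ≤ log(|γ|+N) ≤ Λ`.
`detectV` (with `A = L`): some `k ∈ [k0, (1+κ) k0]` has `R^(k+1) ‖Dk‖ ≥ exp(-5κ k0)`,
`R = a + 1 - β`, hence, with `(a/R)^(k+1) ≥ exp(-(k+1)(1-β)/a)`,
`a^(k+1) ‖Dk‖ ≥ exp(-(k+1)(1-β)/a - 5κ k0) =: M0`.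
Since `(1-β) ≤ 1-σ = a/L`, `1/L ≤ θ^2/4` and `5κ ≤ θ/(2L) ≤ θ^3/8`:
`M0 ≥ exp(-(θ^2/4)((1+κ) k0 + 1) - θ^3 k0/8) ≥ 2 C_tail exp(-θ^2 k0)` for large `k0`, so the tail
(`tailV`, `N1 = N^(1-7θ)`, `N2 = N`, `F = Icc ⌈N^(1-7θ)⌉ ⌊N⌋`; `k ≤ (1+κ) k0 ≤ (1+θ) k0`) is at
most half of it, and `a^(k+1) ‖tPoly‖ ≥ M0/2`.
Finally `(k+1)(1-β)/a ≤ (1-β) log N (1+κ)/(1+4θ) + 1/L` and `5κ k0 ≤ 5κ L (1-σ) log N ≤
(θ/2) (1-σ) log N`, so `M0/2 ≥ N^(-(1-β) - θ(1-σ))` as `(1-σ) log N ≥ C`.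
`c = κ L / (4 log(160/κ))` or smaller (`k0 ≥ (1-7θ)/(1-2θ) L (1-σ) log N ≥ L (1-σ) log N / 8`).
About 200 lines.
-/

set_option autoImplicit false

open Complex

namespace Pool.Agent.H76.SV

open Pool.Agent.H76.CR Pool.Agent.H52.Unc

/-- A series with nonnegative coefficients and unimodular factors, minus a finite part. -/
private theorem tsum_sub_sum_le {g : ℕ → ℝ} (hg : ∀ n, 0 ≤ g n) (hs : Summable g) {z : ℕ → ℂ}
    (hz : ∀ n, ‖z n‖ ≤ 1) (F : Finset ℕ) :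
    ‖(∑' n : ℕ, (g n : ℂ) * z n) - ∑ n ∈ F, (g n : ℂ) * z n‖ ≤
      ∑' n : ℕ, (if n ∈ F then 0 else g n) := by
  have hb : ∀ n, ‖(g n : ℂ) * z n‖ ≤ g n := by
    intro n
    rw [norm_mul, Complex.norm_real, Real.norm_of_nonneg (hg n)]
    exact mul_le_of_le_one_right (hg n) (hz n)
  have hsz : Summable fun n => (g n : ℂ) * z n := Summable.of_norm_bounded hs hb
  have h1 : Summable fun n : ℕ => (if n ∈ F then (0 : ℂ) else (g n : ℂ) * z n) := by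
    refine Summable.of_norm_bounded hs fun n => ?_
    split_ifs with h
    · simpa using hg n
    · exact hb n
  have h2 : Summable fun n : ℕ => (if n ∈ F then (g n : ℂ) * z n else 0) := by
    refine Summable.of_norm_bounded hs fun n => ?_
    split_ifs with h
    · exact hb n
    · simpa using hg n
  have h3 : (∑' n : ℕ, (g n : ℂ) * z n) =
      (∑' n : ℕ, (if n ∈ F then (g n : ℂ) * z n else 0)) +
        ∑' n : ℕ, (if n ∈ F then (0 : ℂ) else (g n : ℂ) * z n) := by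
    rw [← h2.tsum_add h1]
    refine tsum_congr fun n => ?_
    split_ifs <;> simp
  have h4 : (∑' n : ℕ, (if n ∈ F then (g n : ℂ) * z n else 0)) = ∑ n ∈ F, (g n : ℂ) * z n := by
    rw [tsum_eq_sum (s := F) (fun n hn => if_neg hn)]
    exact Finset.sum_congr rfl fun n hn => if_pos hn
  rw [h3, h4, add_sub_cancel_left]
  have h5 : Summable fun n : ℕ => (if n ∈ F then (0 : ℝ) else g n) := by
    refine Summable.of_nonneg_of_le (fun n => ?_) (fun n => ?_) hs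
    · split_ifs
      · exact le_rfl
      · exact hg n
    · split_ifs
      · exact hg n
      · exact le_rfl
  refine tsum_of_norm_bounded h5.hasSum fun n => ?_
  split_ifs with h
  · simp
  · exact hb n

private theorem norm_cpow_unit_le (n : ℕ) (t : ℝ) : ‖(n : ℂ) ^ (-(t * I))‖ ≤ 1 := by
  rcases Nat.eq_zero_or_pos n with rfl | hn
  · rw [Nat.cast_zero]
    by_cases h : (-(t * I) : ℂ) = 0
    · rw [h]; simp
    · rw [Complex.zero_cpow h]; simp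
  · rw [Complex.norm_natCast_cpow_of_pos hn]
    simp

private theorem aux_q4 {θ κ k0 w : ℝ} (hθ64 : θ ^ 2 ≤ 1 / 64) (h0 : 0 ≤ θ ^ 2 * k0)
    (h1 : w ≤ θ ^ 2 / 4 * (9 / 8 * k0 + 1)) (h2 : 5 * κ * k0 ≤ θ ^ 2 / 64 * k0) :
    θ ^ 2 / 2 * k0 - 1 ≤ θ ^ 2 * k0 - 5 * κ * k0 - w := by
  have e1 : θ ^ 2 / 4 * (9 / 8 * k0 + 1) = 9 / 32 * (θ ^ 2 * k0) + θ ^ 2 / 4 := by ring
  have e2 : θ ^ 2 / 64 * k0 = 1 / 64 * (θ ^ 2 * k0) := by ring
  have e3 : θ ^ 2 / 2 * k0 = 1 / 2 * (θ ^ 2 * k0) := by ring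
  rw [e1] at h1
  rw [e2] at h2
  rw [e3]
  linarith

private theorem aux_q2 {θ L C C2 x k0 : ℝ} (hC : 4 * C2 ≤ C)
    (h1 : θ ^ 2 * (x / 4) ≤ θ ^ 2 * k0) (h2 : θ ^ 2 * (L * C) ≤ θ ^ 2 * x)
    (h3 : 4 * C ≤ L * θ ^ 2 * C) : 2 * C2 ≤ θ ^ 2 / 2 * k0 := by
  have e1 : θ ^ 2 * (x / 4) = 1 / 4 * (θ ^ 2 * x) := by ring
  have e2 : θ ^ 2 * (L * C) = L * θ ^ 2 * C := by ring
  have e3 : θ ^ 2 / 2 * k0 = 1 / 2 * (θ ^ 2 * k0) := by ring
  rw [e1] at h1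
  rw [e2] at h2
  rw [e3]
  linarith

private theorem aux_r9 {l b θ δ s w : ℝ} (h1 : s ≤ θ / 2 * (δ * l))
    (h2 : w ≤ (1 - b) * l + 1 / 256) (h3 : 3 ≤ θ * (δ * l)) :
    l * (-(1 - b) - θ * δ) ≤ -1 + (-s - w) := by
  have e1 : l * (-(1 - b) - θ * δ) = -((1 - b) * l) - θ * (δ * l) := by ring
  have e2 : θ / 2 * (δ * l) = 1 / 2 * (θ * (δ * l)) := by ring
  rw [e1]
  rw [e2] at h1
  linarith

private theorem aux_u {θ L u : ℝ} (hL : 4 ≤ L * θ ^ 2) (hL0 : 0 < L) (huL : u * L ≤ 1) :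
    u ≤ θ ^ 2 / 4 := by
  by_contra hlt
  push Not at hlt
  have h2 : θ ^ 2 / 4 * L < u * L := mul_lt_mul_of_pos_right hlt hL0
  have e : θ ^ 2 / 4 * L = 1 / 4 * (L * θ ^ 2) := by ring
  rw [e] at h2
  linarith

private theorem aux_k {θ L κ : ℝ} (hL : 4 ≤ L * θ ^ 2) (hL0 : 0 < L) (hθ1 : θ ≤ 1 / 8)
    (hκL : 5 * κ * L ≤ θ / 2) : 5 * κ ≤ θ ^ 2 / 64 := by
  by_contra hlt
  push Not at hlt
  have h1 : θ ^ 2 / 64 * L < 5 * κ * L := mul_lt_mul_of_pos_right hlt hL0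
  have e : θ ^ 2 / 64 * L = 1 / 64 * (L * θ ^ 2) := by ring
  rw [e] at h1
  linarith

private theorem aux_f {θ x k0 : ℝ} (hθ : 0 < θ) (hθ1 : θ ≤ 1 / 8) (hk0nn : 0 ≤ k0)
    (h : x < (k0 + 1) * (1 + 4 * θ)) (hθx : 1 ≤ θ * x) :
    (1 - 7 * θ) * x ≤ (1 - 2 * θ) * k0 := by
  have f1 : (1 - 6 * θ) * (1 + 4 * θ) ≤ 1 - 2 * θ := by nlinarith
  have f2 : (1 - 6 * θ) * x ≤ (1 - 6 * θ) * ((k0 + 1) * (1 + 4 * θ)) :=
    mul_le_mul_of_nonneg_left h.le (by linarith)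
  have f3 : (1 - 6 * θ) * ((k0 + 1) * (1 + 4 * θ)) ≤ (1 - 2 * θ) * (k0 + 1) := by
    have : (1 - 6 * θ) * ((k0 + 1) * (1 + 4 * θ)) = (1 - 6 * θ) * (1 + 4 * θ) * (k0 + 1) := by
      ring
    rw [this]
    exact mul_le_mul_of_nonneg_right f1 (by linarith)
  have e1 : (1 - 7 * θ) * x = (1 - 6 * θ) * x - θ * x := by ring
  have e2 : (1 - 2 * θ) * (k0 + 1) = (1 - 2 * θ) * k0 + 1 - 2 * θ := by ring
  rw [e1]
  linarith

private theorem aux_quarter {θ x k0 : ℝ} (hθ1 : θ ≤ 1 / 8) (hk0nn : 0 ≤ k0)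
    (h : x < (k0 + 1) * (1 + 4 * θ)) (hx : 768 ≤ x) : x / 4 ≤ k0 := by
  have h1 : (k0 + 1) * (1 + 4 * θ) ≤ (k0 + 1) * (3 / 2) :=
    mul_le_mul_of_nonneg_left (by linarith) (by linarith)
  linarith

theorem seenV {θ η L : ℝ} (hθ : 0 < θ) (hθ1 : θ ≤ 1 / 8) (hη : 0 < η) (hη1 : η ≤ 1)
    (hL : 4 ≤ L * θ ^ 2) :
    ∃ c C : ℝ, 0 < c ∧ 1 ≤ C ∧ ∀ (σ N Λ : ℝ) (ρ : ℂ), σ < 1 →
      (1 + η) ^ 2 * (L * (1 - σ) + 1 - σ) ≤ L * (1 - σ) + 1 / 2 → riemannZeta ρ = 0 →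
      σ ≤ ρ.re → C ≤ |ρ.im| → 1 ≤ N → Real.log (|ρ.im| + N) ≤ Λ →
      C * Real.log Λ + C ≤ (1 - σ) * Real.log N →
      (rz (3 * (L * (1 - σ) + 1 - σ)) (ρ.re - η * (L * (1 - σ) + 1 - σ)) ρ : ℝ) <
        c * (1 - σ) * Real.log N →
      ∃ k : ℕ, (k : ℝ) ≤ L * (1 - σ) * Real.log N ∧
        N ^ (-(1 - ρ.re) - θ * (1 - σ)) ≤
          (L * (1 - σ)) ^ (k + 1) * ‖tPoly θ (L * (1 - σ)) k N ρ.im‖ := by
  obtain ⟨κ, hκ⟩ : ∃ κ : ℝ, κ = min (min (η / 8) (θ / (10 * L))) (min (θ / 2) (1 / 8)) := ⟨_, rfl⟩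
  have hθ2 : 0 < θ ^ 2 := by positivity
  have hθ64 : θ ^ 2 ≤ 1 / 64 := by nlinarith
  have hL256 : 256 ≤ L := by nlinarith
  have hL0 : 0 < L := by linarith
  have hκ0 : 0 < κ := by
    rw [hκ]
    exact lt_min (lt_min (by positivity) (by positivity)) (lt_min (by positivity) (by norm_num))
  have hκη : 8 * κ ≤ η := by
    have : κ ≤ η / 8 := by rw [hκ]; exact (min_le_left _ _).trans (min_le_left _ _)
    linarith
  have hκL : 5 * κ * L ≤ θ / 2 := by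
    have : κ ≤ θ / (10 * L) := by rw [hκ]; exact (min_le_left _ _).trans (min_le_right _ _)
    rw [le_div_iff₀ (by positivity)] at this
    linarith
  have hκθ : κ ≤ θ / 2 := by rw [hκ]; exact (min_le_right _ _).trans (min_le_left _ _)
  have hκ8 : κ ≤ 1 / 8 := by rw [hκ]; exact (min_le_right _ _).trans (min_le_right _ _)
  obtain ⟨C1, hC1, hdet⟩ := detectV hL0 hκ0 hκη hη1
  obtain ⟨C2, hC2, htail⟩ := tailV hθ hθ1 hL0
  have hlog : 0 < Real.log (160 / κ) := by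
    apply Real.log_pos
    rw [lt_div_iff₀ hκ0]
    linarith
  have p6 : 0 < 3 / θ := by positivity
  obtain ⟨C, hC⟩ : ∃ C : ℝ, C = 3 + C1 + 4 * C2 + 3 / θ := ⟨_, rfl⟩
  refine ⟨κ / Real.log (160 / κ) * (L / 4), C, by positivity, by linarith, ?_⟩
  intro σ N Λ ρ hσ1 hconst hζ hre hIm hN1' hΛ hbig hnear
  obtain ⟨δ, hδ⟩ : ∃ δ : ℝ, δ = 1 - σ := ⟨_, rfl⟩
  have hδ0 : 0 < δ := by linarith
  have hN0 : 0 < N := by linarith
  obtain ⟨l, hl⟩ : ∃ l : ℝ, l = Real.log N := ⟨_, rfl⟩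
  obtain ⟨a, ha⟩ : ∃ a : ℝ, a = L * (1 - σ) := ⟨_, rfl⟩
  have haδ : a = L * δ := by rw [ha, hδ]
  have ha0 : 0 < a := by rw [haδ]; positivity
  have hl0 : 0 ≤ l := by rw [hl]; exact Real.log_nonneg hN1'
  rw [← ha] at hconst hnear ⊢
  rw [← hl] at hbig hnear ⊢
  rw [← hδ] at hbig
  have hCpos : 3 < C := by linarith
  -- `σ ≥ 1/2`
  have hδhalf : δ ≤ 1 / 2 := by
    have h1 : a + 1 - σ ≤ (1 + η) ^ 2 * (a + 1 - σ) := by
      have h2 : 0 ≤ a + 1 - σ := by linarith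
      have h3 : 1 ≤ (1 + η) ^ 2 := by nlinarith
      nlinarith
    linarith
  have haL : a ≤ L := by rw [haδ]; nlinarith
  have h1σa : 1 - σ ≤ a := by rw [haδ, ← hδ]; nlinarith
  -- `Λ`
  have hγ0 : 0 < |ρ.im| := by linarith
  have hΛ1 : 1 ≤ Λ := by
    refine le_trans ?_ hΛ
    rw [Real.le_log_iff_exp_le (by linarith)]
    have := Real.exp_one_lt_d9
    linarith
  have hlΛ : 0 ≤ Real.log Λ := Real.log_nonneg hΛ1
  have hCl : C ≤ δ * l := by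
    have : 0 ≤ C * Real.log Λ := by positivity
    linarith
  have hl2 : 2 * C ≤ l := by nlinarith
  have hlpos : 0 < l := by linarith
  have hlogN : l ≤ Real.log (|ρ.im| + N) := by
    rw [hl]
    exact Real.log_le_log hN0 (by linarith)
  have hN2 : 2 ≤ N := by
    have h1 : Real.exp l = N := by rw [hl, Real.exp_log hN0]
    have h2 := Real.add_one_le_exp l
    linarith
  have hΛ2 : Real.log (|ρ.im| + 2) ≤ Λ :=
    le_trans (Real.log_le_log (by linarith) (by linarith)) hΛ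
  have hΛa : Real.log (1 / a) ≤ Λ := by
    have h1 : 1 / a ≤ l := by
      rw [div_le_iff₀ ha0, haδ]
      nlinarith
    have h2 : Real.log (1 / a) ≤ Real.log l := Real.log_le_log (by positivity) h1
    have h3 : Real.log l ≤ l - 1 := Real.log_le_sub_one_of_pos hlpos
    linarith
  -- k0
  obtain ⟨x, hx⟩ : ∃ x : ℝ, x = a * l := ⟨_, rfl⟩
  have hxL : x = L * (δ * l) := by rw [hx, haδ]; ring
  have hxC : L * C ≤ x := by rw [hxL]; exact mul_le_mul_of_nonneg_left hCl hL0.le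
  have hx0 : 0 < x := lt_of_lt_of_le (by positivity) hxC
  have hx768 : 768 ≤ x := by
    have h3 : 256 * 3 ≤ L * C := mul_le_mul hL256 hCpos.le (by norm_num) hL0.le
    linarith
  have hθC : 3 ≤ θ * C := by
    have h1 : 3 / θ ≤ C := by linarith
    have h2 := (div_le_iff₀ hθ).1 h1
    linarith
  have hθx : 1 ≤ θ * x := by
    have h1 : θ * (L * C) ≤ θ * x := mul_le_mul_of_nonneg_left hxC hθ.le
    have h2 : θ * (L * C) = L * (θ * C) := by ring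
    have h3 : 256 * 3 ≤ L * (θ * C) := mul_le_mul hL256 hθC (by norm_num) hL0.le
    linarith
  have h4 : 0 < 1 + 4 * θ := by linarith
  obtain ⟨k0, hk0⟩ : ∃ k0 : ℕ, k0 = ⌊x / (1 + 4 * θ)⌋₊ := ⟨_, rfl⟩
  have hk0le : (k0 : ℝ) ≤ x / (1 + 4 * θ) := by
    rw [hk0]; exact Nat.floor_le (by positivity)
  have hk0lt : x / (1 + 4 * θ) < k0 + 1 := by
    rw [hk0]; exact Nat.lt_floor_add_one _
  have hk0' : (1 + 4 * θ) * k0 ≤ x := by
    rw [le_div_iff₀ h4] at hk0le; linarith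
  have hk0'' : x < (k0 + 1) * (1 + 4 * θ) := by
    rwa [div_lt_iff₀ h4] at hk0lt
  have hk0nn : (0 : ℝ) ≤ k0 := Nat.cast_nonneg _
  have hquarter : x / 4 ≤ k0 := aux_quarter hθ1 hk0nn hk0'' hx768
  have hR3 : C1 * Real.log Λ + C1 ≤ k0 := by
    have h1 : C1 * Real.log Λ ≤ C * Real.log Λ :=
      mul_le_mul_of_nonneg_right (by linarith) hlΛ
    have h2 : δ * l ≤ x / 4 := by
      rw [hxL]
      have h3 : 0 ≤ δ * l := by positivity
      have h4 : 256 * (δ * l) ≤ L * (δ * l) := mul_le_mul_of_nonneg_right hL256 h3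
      linarith
    linarith
  have hnear' : (rz (3 * (a + 1 - σ)) (ρ.re - η * (a + 1 - σ)) ρ : ℝ) ≤
      κ / Real.log (160 / κ) * k0 := by
    refine hnear.le.trans ?_
    have : κ / Real.log (160 / κ) * (L / 4) * (1 - σ) * l = κ / Real.log (160 / κ) * (x / 4) := by
      rw [hx, ha]; ring
    rw [this]
    exact mul_le_mul_of_nonneg_left hquarter (by positivity)
  obtain ⟨k, hk1, hk2, hk3⟩ := hdet a σ Λ ρ k0 ha0 haL hσ1 h1σa hconst hζ hre (by linarith) hΛ1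
    hΛ2 hΛa hR3 hnear'
  have hk1θ : (k : ℝ) ≤ (1 + θ) * k0 := by
    refine hk2.trans (mul_le_mul_of_nonneg_right ?_ hk0nn)
    linarith
  -- the tail
  have hN1 : 0 < N ^ (1 - 7 * θ) := Real.rpow_pos_of_pos hN0 _
  have hlogN1 : a * Real.log (N ^ (1 - 7 * θ)) ≤ (1 - 2 * θ) * k0 := by
    rw [Real.log_rpow hN0, ← hl]
    have f0 : a * ((1 - 7 * θ) * l) = (1 - 7 * θ) * x := by rw [hx]; ring
    rw [f0]
    exact aux_f hθ hθ1 hk0nn hk0'' hθx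
  obtain ⟨F, hF⟩ : ∃ F : Finset ℕ, F = Finset.Icc ⌈N ^ (1 - 7 * θ)⌉₊ ⌊N⌋₊ := ⟨_, rfl⟩
  have hmem : ∀ n : ℕ, N ^ (1 - 7 * θ) ≤ n → (n : ℝ) ≤ N → n ∈ F := by
    intro n h1 h2
    rw [hF, Finset.mem_Icc]
    exact ⟨Nat.ceil_le.2 h1, Nat.le_floor h2⟩
  have ht := htail a k0 k (N ^ (1 - 7 * θ)) N ha0 haL hk1 hk1θ hN1 hN0 hlogN1
    (by rw [← hl, ← hx]; exact hk0') F hmem
  have happ := tsum_sub_sum_le (fun n => dco_nonneg a k n) (summable_dco ha0 k)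
    (fun n => norm_cpow_unit_le n ρ.im) F
  have hak : 0 < a ^ (k + 1) := pow_pos ha0 _
  refine ⟨k, ?_, ?_⟩
  · rw [← hx]
    refine hk1θ.trans (le_trans (mul_le_mul_of_nonneg_right ?_ hk0nn) hk0')
    linarith
  unfold tPoly
  rw [← hF]
  have g1 : ‖Dk a k ρ.im‖ ≤ ‖∑ n ∈ F, (dco a k n : ℂ) * (n : ℂ) ^ (-(ρ.im * I))‖ +
      C2 * Real.exp (-(θ ^ 2 * k0)) / a ^ (k + 1) := by
    have := norm_le_norm_add_norm_sub' (Dk a k ρ.im)
      (∑ n ∈ F, (dco a k n : ℂ) * (n : ℂ) ^ (-(ρ.im * I)))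
    have h' : ‖Dk a k ρ.im - ∑ n ∈ F, (dco a k n : ℂ) * (n : ℂ) ^ (-(ρ.im * I))‖ ≤
        C2 * Real.exp (-(θ ^ 2 * k0)) / a ^ (k + 1) := happ.trans ht
    linarith
  have g2 : a ^ (k + 1) * ‖Dk a k ρ.im‖ ≤
      a ^ (k + 1) * ‖∑ n ∈ F, (dco a k n : ℂ) * (n : ℂ) ^ (-(ρ.im * I))‖ +
      C2 * Real.exp (-(θ ^ 2 * k0)) := by
    have := mul_le_mul_of_nonneg_left g1 hak.le
    rw [mul_add, mul_div_cancel₀ _ hak.ne'] at this
    exact this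
  -- from `R` to `a`
  have hβ1 : ρ.re < 1 := by
    by_contra hge
    exact riemannZeta_ne_zero_of_one_le_re (not_lt.1 hge) hζ
  obtain ⟨u, hu⟩ : ∃ u : ℝ, u = (1 - ρ.re) / a := ⟨_, rfl⟩
  have hu0 : 0 ≤ u := by rw [hu]; exact div_nonneg (by linarith) ha0.le
  have huL : u * L ≤ 1 := by
    rw [hu, div_mul_eq_mul_div, div_le_one ha0, haδ, mul_comm L δ]
    exact mul_le_mul_of_nonneg_right (by linarith) hL0.le
  have huθ : u ≤ θ ^ 2 / 4 := aux_u hL hL0 huL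
  have hR : (a + 1 - ρ.re) ^ (k + 1) ≤ a ^ (k + 1) * Real.exp ((k + 1) * u) := by
    have h1 : a + 1 - ρ.re = a * (1 + u) := by
      rw [hu]; field_simp; ring
    rw [h1, mul_pow]
    apply mul_le_mul_of_nonneg_left _ hak.le
    have h2 : 1 + u ≤ Real.exp u := by linarith [Real.add_one_le_exp u]
    calc (1 + u) ^ (k + 1) ≤ Real.exp u ^ (k + 1) := pow_le_pow_left₀ (by linarith) h2 _
      _ = Real.exp ((k + 1) * u) := by
        rw [← Real.exp_nat_mul]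
        push_cast
        rfl
  have hM0 : Real.exp (-(5 * κ * k0) - (k + 1) * u) ≤ a ^ (k + 1) * ‖Dk a k ρ.im‖ := by
    have h1 : Real.exp (-(5 * κ * k0)) ≤
        a ^ (k + 1) * Real.exp ((k + 1) * u) * ‖Dk a k ρ.im‖ :=
      hk3.trans (mul_le_mul_of_nonneg_right hR (norm_nonneg _))
    rw [Real.exp_sub, div_le_iff₀ (Real.exp_pos _)]
    linarith
  have hk0u : ((k : ℝ) + 1) * u ≤ θ ^ 2 / 4 * (9 / 8 * k0 + 1) := by
    have h1 : (k : ℝ) + 1 ≤ 9 / 8 * k0 + 1 := by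
      have : (1 + κ) * (k0 : ℝ) ≤ 9 / 8 * k0 := mul_le_mul_of_nonneg_right (by linarith) hk0nn
      linarith
    calc ((k : ℝ) + 1) * u ≤ (9 / 8 * k0 + 1) * u := mul_le_mul_of_nonneg_right h1 hu0
      _ ≤ (9 / 8 * k0 + 1) * (θ ^ 2 / 4) := mul_le_mul_of_nonneg_left huθ (by positivity)
      _ = _ := by ring
  have h5κ : 5 * κ ≤ θ ^ 2 / 64 := aux_k hL hL0 hθ1 hκL
  -- the tail is at most half
  have g3 : C2 * Real.exp (-(θ ^ 2 * k0)) ≤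
      1 / 2 * Real.exp (-(5 * κ * k0) - (k + 1) * u) := by
    have q1 : Real.exp (-(θ ^ 2 * k0)) =
        Real.exp (-(θ ^ 2 * k0 - 5 * κ * k0 - (k + 1) * u)) *
        Real.exp (-(5 * κ * k0) - (k + 1) * u) := by
      rw [← Real.exp_add]
      congr 1
      ring
    have q0 : 5 * κ * k0 ≤ θ ^ 2 / 64 * k0 := mul_le_mul_of_nonneg_right h5κ hk0nn
    have q4 : θ ^ 2 / 2 * k0 - 1 ≤ θ ^ 2 * k0 - 5 * κ * k0 - (k + 1) * u :=
      aux_q4 hθ64 (mul_nonneg hθ2.le hk0nn) hk0u q0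
    have q2 : 2 * C2 ≤ θ ^ 2 / 2 * k0 := by
      have h1 : θ ^ 2 * (x / 4) ≤ θ ^ 2 * k0 := mul_le_mul_of_nonneg_left hquarter hθ2.le
      have h2 : θ ^ 2 * (L * C) ≤ θ ^ 2 * x := mul_le_mul_of_nonneg_left hxC hθ2.le
      have h3 : 4 * C ≤ L * θ ^ 2 * C := mul_le_mul_of_nonneg_right hL (by linarith)
      exact aux_q2 (by linarith) h1 h2 h3
    have q3 : C2 * Real.exp (-(θ ^ 2 * k0 - 5 * κ * k0 - (k + 1) * u)) ≤ 1 / 2 := by
      rw [Real.exp_neg, ← div_eq_mul_inv, div_le_iff₀ (Real.exp_pos _)]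
      have := Real.add_one_le_exp (θ ^ 2 * k0 - 5 * κ * k0 - (k + 1) * u)
      linarith
    rw [q1, ← mul_assoc]
    exact mul_le_mul_of_nonneg_right q3 (Real.exp_pos _).le
  have g4 : N ^ (-(1 - ρ.re) - θ * (1 - σ)) ≤
      1 / 2 * Real.exp (-(5 * κ * k0) - (k + 1) * u) := by
    rw [Real.rpow_def_of_pos hN0, ← hl, ← hδ]
    have r1 : 5 * κ * k0 ≤ θ / 2 * (δ * l) := by
      have r2 : (k0 : ℝ) ≤ x := by
        have h5 : (k0 : ℝ) ≤ (1 + 4 * θ) * k0 := le_mul_of_one_le_left hk0nn (by linarith)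
        exact h5.trans hk0'
      have r3 : 5 * κ * k0 ≤ 5 * κ * x := mul_le_mul_of_nonneg_left r2 (by positivity)
      have r4 : 5 * κ * x = 5 * κ * L * (δ * l) := by rw [hxL]; ring
      rw [r4] at r3
      exact r3.trans (mul_le_mul_of_nonneg_right hκL (by positivity))
    have r5 : ((k : ℝ) + 1) * u ≤ (1 - ρ.re) * l + 1 / 256 := by
      have r6 : (k : ℝ) ≤ x := by
        have : (1 + κ) * (k0 : ℝ) ≤ (1 + 4 * θ) * k0 :=
          mul_le_mul_of_nonneg_right (by linarith) hk0nn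
        linarith
      have r7 : (k : ℝ) * u ≤ (1 - ρ.re) * l := by
        calc (k : ℝ) * u ≤ x * u := mul_le_mul_of_nonneg_right r6 hu0
          _ = (1 - ρ.re) * l := by rw [hx, hu]; field_simp
      have r8 : u ≤ 1 / 256 := by linarith
      linarith
    have r9 : l * (-(1 - ρ.re) - θ * δ) ≤ -1 + (-(5 * κ * k0) - (k + 1) * u) := by
      have r10 : 3 ≤ θ * (δ * l) := hθC.trans (mul_le_mul_of_nonneg_left hCl hθ.le)
      exact aux_r9 r1 r5 r10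
    calc Real.exp (l * (-(1 - ρ.re) - θ * δ)) ≤
        Real.exp (-1 + (-(5 * κ * k0) - (k + 1) * u)) := Real.exp_le_exp.2 r9
      _ = Real.exp (-1) * Real.exp (-(5 * κ * k0) - (k + 1) * u) := Real.exp_add _ _
      _ ≤ 1 / 2 * Real.exp (-(5 * κ * k0) - (k + 1) * u) := by
        apply mul_le_mul_of_nonneg_right _ (Real.exp_pos _).le
        rw [Real.exp_neg, ← one_div]
        apply one_div_le_one_div_of_le (by norm_num)
        have := Real.add_one_le_exp (1 : ℝ)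
        linarith
  linarith

end Pool.Agent.H76.SV
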