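import Mathlib
import Pool.Agent.H76.SV.Defs

/-!
# Block: dyadic blocks of `tPoly`, and the size of the coefficients

`block`: `M_j = 2^j ⌈N^(1-7θ)⌉₊`, `B_j = min (2 M_j - 1) ⌊N⌋₊`; the sets `Icc M_j B_j`, `j < J`
(`J` the least number with `M_J > ⌊N⌋₊`), are disjoint with union `Icc M_0 ⌊N⌋₊`, and `J ≤
log N / log 2 + 1 ≤ 2 log N + 1`; so one block is at least `‖tPoly‖ / J` (`tPoly ≠ 0` makes `J ≥ 1`).
`coef_le`: `a^k (log n)^k / k! ≤ exp(a log n) = n^a` (`Real.pow_div_factorial_le_exp`), so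
`a^k dco a k n ≤ Λ(n)/n ≤ log n / n`.
`coef_sq`: at most `M + 1 ≤ 2M` terms (as `B ≤ 2M`), each `≤ a^2 log(2M)^2 / M^2`.
About 120 lines.
-/

set_option autoImplicit false

open Complex

namespace Pool.Agent.H76.SV

open Pool.Agent.H76.CR Pool.Agent.H52.Unc

private theorem sum_blocks (f : ℕ → ℂ) (M L : ℕ) (J : ℕ) :
    ∑ j ∈ Finset.range J,
      ∑ n ∈ Finset.Ico (min (2 ^ j * M) (L + 1)) (min (2 ^ (j + 1) * M) (L + 1)), f n =
      ∑ n ∈ Finset.Ico (min M (L + 1)) (min (2 ^ J * M) (L + 1)), f n := by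
  induction J with
  | zero => simp
  | succ J ih =>
    rw [Finset.sum_range_succ, ih]
    refine Finset.sum_Ico_consecutive f ?_ ?_
    · refine min_le_min_right _ ?_
      exact Nat.le_mul_of_pos_left M (by positivity)
    · refine min_le_min_right _ ?_
      exact Nat.mul_le_mul_right M (Nat.pow_le_pow_right (by norm_num) (Nat.le_succ J))

private theorem two_log_two : 1 ≤ 2 * Real.log 2 := by
  have := Real.log_two_gt_d9
  linarith

theorem block {θ a N t : ℝ} {k : ℕ} (hN : 1 ≤ N) (h0 : tPoly θ a k N t ≠ 0) :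
    ∃ j : ℕ, 2 ^ j * ⌈N ^ (1 - 7 * θ)⌉₊ ≤ ⌊N⌋₊ ∧
      ‖tPoly θ a k N t‖ ≤ (2 * Real.log N + 1) *
        ‖bl a k (2 ^ j * ⌈N ^ (1 - 7 * θ)⌉₊)
          (min (2 * (2 ^ j * ⌈N ^ (1 - 7 * θ)⌉₊) - 1) ⌊N⌋₊) t‖ := by
  have hN0 : 0 < N := lt_of_lt_of_le one_pos hN
  set M := ⌈N ^ (1 - 7 * θ)⌉₊ with hMd
  set L := ⌊N⌋₊ with hLd
  have hM : 1 ≤ M := Nat.one_le_ceil_iff.2 (Real.rpow_pos_of_pos hN0 _)
  have hL : (L : ℝ) ≤ N := Nat.floor_le hN0.le
  have hML : M ≤ L := by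
    by_contra hlt
    apply h0
    unfold tPoly
    rw [← hMd, ← hLd, Finset.Icc_eq_empty hlt, Finset.sum_empty]
  set x := L / M with hx
  have hx1 : 1 ≤ x := (Nat.one_le_div_iff (by omega)).2 hML
  set J := Nat.log 2 x + 1 with hJ
  set f : ℕ → ℂ := fun n => (dco a k n : ℂ) * (n : ℂ) ^ (-(t * I)) with hf
  have hle : ∀ j ∈ Finset.range J, 2 ^ j * M ≤ L := by
    intro j hj
    rw [Finset.mem_range] at hj
    have h1 : 2 ^ j ≤ x := (Nat.pow_le_pow_right (by norm_num) (by omega)).trans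
      (Nat.pow_log_le_self 2 (by omega))
    exact (Nat.le_div_iff_mul_le (by omega)).1 h1
  have hgt : L < 2 ^ J * M := by
    have h1 : x < 2 ^ J := Nat.lt_pow_succ_log_self (by norm_num) x
    exact (Nat.div_lt_iff_lt_mul (by omega)).1 h1
  have hbl : ∀ j ∈ Finset.range J,
      ∑ n ∈ Finset.Ico (min (2 ^ j * M) (L + 1)) (min (2 ^ (j + 1) * M) (L + 1)), f n =
        bl a k (2 ^ j * M) (min (2 * (2 ^ j * M) - 1) L) t := by
    intro j hj
    have h1 := hle j hj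
    have h2 : 1 ≤ 2 ^ j * M := Nat.mul_pos (by positivity) hM
    unfold bl
    refine Finset.sum_congr ?_ fun _ _ => rfl
    ext n
    rw [Finset.mem_Ico, Finset.mem_Icc, pow_succ, mul_comm (2 ^ j) 2, mul_assoc]
    omega
  have htot : tPoly θ a k N t =
      ∑ j ∈ Finset.range J, bl a k (2 ^ j * M) (min (2 * (2 ^ j * M) - 1) L) t := by
    rw [← Finset.sum_congr rfl hbl, sum_blocks f M L J]
    unfold tPoly
    rw [← hMd, ← hLd]
    refine Finset.sum_congr ?_ fun _ _ => rfl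
    ext n
    rw [Finset.mem_Ico, Finset.mem_Icc]
    omega
  have hJ0 : (0 : ℝ) < J := by
    rw [hJ]
    positivity
  have hJN : (J : ℝ) ≤ 2 * Real.log N + 1 := by
    have h1 : 2 ^ Nat.log 2 x ≤ L := (Nat.pow_log_le_self 2 (by omega)).trans (Nat.div_le_self L M)
    have h2 : (2 : ℝ) ^ Nat.log 2 x ≤ N := le_trans (by exact_mod_cast h1) hL
    have h3 := Real.log_le_log (by positivity) h2
    rw [Real.log_pow] at h3
    have h4 : (0 : ℝ) ≤ Nat.log 2 x := Nat.cast_nonneg _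
    have h5 := mul_le_mul_of_nonneg_left two_log_two h4
    rw [hJ]
    push_cast
    linarith
  obtain ⟨j, hj, hj2⟩ := Finset.exists_le_of_sum_le (s := Finset.range J)
    (f := fun _ => ‖tPoly θ a k N t‖ / J)
    (g := fun j => ‖bl a k (2 ^ j * M) (min (2 * (2 ^ j * M) - 1) L) t‖)
    (Finset.nonempty_range_iff.2 (by omega)) (by
      rw [Finset.sum_const, Finset.card_range, nsmul_eq_mul, mul_div_cancel₀ _ hJ0.ne']
      conv_lhs => rw [htot]
      exact norm_sum_le _ _)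
  refine ⟨j, hle j hj, ?_⟩
  have h5 : ‖tPoly θ a k N t‖ ≤ J * ‖bl a k (2 ^ j * M) (min (2 * (2 ^ j * M) - 1) L) t‖ := by
    have h6 := (div_le_iff₀' hJ0).1 hj2
    exact h6
  exact h5.trans (mul_le_mul_of_nonneg_right hJN (norm_nonneg _))

theorem coef_le {a : ℝ} (ha : 0 < a) (k n : ℕ) (hn : 1 ≤ n) :
    a ^ k * dco a k n ≤ Real.log n / n := by
  have hn0 : (0 : ℝ) < n := by exact_mod_cast hn
  have hlog : 0 ≤ Real.log n := Real.log_natCast_nonneg n
  have h1 := Real.pow_div_factorial_le_exp (a * Real.log n) (by positivity) k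
  have h2 : Real.exp (a * Real.log n) = (n : ℝ) ^ a := by
    rw [Real.rpow_def_of_pos hn0, mul_comm]
  rw [h2, mul_pow] at h1
  have h3 : ArithmeticFunction.vonMangoldt n ≤ Real.log n := ArithmeticFunction.vonMangoldt_le_log
  have h4 : (n : ℝ) ^ a * (n : ℝ) ^ (-(1 + a)) = (n : ℝ)⁻¹ := by
    rw [← Real.rpow_add hn0, ← Real.rpow_neg_one]
    congr 1
    ring
  have h5 : 0 ≤ (n : ℝ) ^ (-(1 + a)) := Real.rpow_nonneg hn0.le _
  calc a ^ k * dco a k n = ArithmeticFunction.vonMangoldt n *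
        ((a ^ k * Real.log n ^ k / (k.factorial : ℝ)) * (n : ℝ) ^ (-(1 + a))) := by
        unfold dco
        ring
    _ ≤ Real.log n * ((n : ℝ) ^ a * (n : ℝ) ^ (-(1 + a))) := by
        refine mul_le_mul h3 (mul_le_mul_of_nonneg_right h1 h5) ?_ hlog
        exact mul_nonneg (by positivity) h5
    _ = Real.log n / n := by rw [h4, div_eq_mul_inv]

private theorem dco_nonneg (a : ℝ) (k n : ℕ) : 0 ≤ dco a k n := by
  unfold dco
  refine mul_nonneg (mul_nonneg ArithmeticFunction.vonMangoldt_nonneg ?_)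
    (Real.rpow_nonneg (Nat.cast_nonneg _) _)
  exact div_nonneg (pow_nonneg (Real.log_natCast_nonneg n) _) (Nat.cast_nonneg _)

theorem coef_sq {a : ℝ} (ha : 0 < a) (k M B : ℕ) (hM : 1 ≤ M) (hB : B ≤ 2 * M) :
    ∑ n ∈ Finset.Icc M B, (a ^ (k + 1) * dco a k n) ^ 2 ≤
      2 * a ^ 2 * Real.log (2 * M) ^ 2 / M := by
  have hM0 : (0 : ℝ) < M := by exact_mod_cast hM
  have hterm : ∀ n ∈ Finset.Icc M B, (a ^ (k + 1) * dco a k n) ^ 2 ≤
      (a * (Real.log (2 * M) / M)) ^ 2 := by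
    intro n hn
    rw [Finset.mem_Icc] at hn
    have hn1 : 1 ≤ n := hM.trans hn.1
    have hn0 : (0 : ℝ) < n := by exact_mod_cast hn1
    have hMn : (M : ℝ) ≤ n := by exact_mod_cast hn.1
    have hn2 : (n : ℝ) ≤ 2 * M := by exact_mod_cast hn.2.trans hB
    have h1 : Real.log n / n ≤ Real.log (2 * M) / M := by
      have hl := Real.log_le_log hn0 hn2
      have hl0 : 0 ≤ Real.log n := Real.log_natCast_nonneg n
      exact div_le_div₀ (hl0.trans hl) hl hM0 hMn
    have h2 : a ^ (k + 1) * dco a k n = a * (a ^ k * dco a k n) := by ring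
    have h3 : 0 ≤ a ^ k * dco a k n := mul_nonneg (by positivity) (dco_nonneg a k n)
    rw [h2]
    refine pow_le_pow_left₀ (mul_nonneg ha.le h3) ?_ 2
    exact mul_le_mul_of_nonneg_left ((coef_le ha k n hn1).trans h1) ha.le
  refine (Finset.sum_le_sum hterm).trans ?_
  rw [Finset.sum_const, Nat.card_Icc, nsmul_eq_mul]
  have hcard : ((B + 1 - M : ℕ) : ℝ) ≤ 2 * M := by
    have : B + 1 - M ≤ 2 * M := by omega
    exact_mod_cast this
  calc ((B + 1 - M : ℕ) : ℝ) * (a * (Real.log (2 * M) / M)) ^ 2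
      ≤ 2 * M * (a * (Real.log (2 * M) / M)) ^ 2 :=
        mul_le_mul_of_nonneg_right hcard (sq_nonneg _)
    _ = 2 * a ^ 2 * Real.log (2 * M) ^ 2 / M := by
        field_simp

end Pool.Agent.H76.SV
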