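import Mathlib
import Pool.Agent.H76.SV.Block
import Pool.Agent.H76.CR.Sep
import Pool.Agent.H76.CR.DerivL

/-!
# SepMV: few separated points where one of the polynomials is large (mean value version)

For `x ∈ X` let `k` be as in the hypothesis; `tPoly ≠ 0` there, and `block` gives `j` with
`2^j M_0 ≤ ⌊N⌋₊` (so `j ≤ log N / log 2 ≤ 2 log N`) and
`N^(-μ) ≤ (2 log N + 1) a^(k+1) ‖bl a k M B x‖`, `M = 2^j ⌈N^(1-7θ)⌉₊`, `B = min (2M-1) ⌊N⌋₊`.
For a fixed pair `(k, j)` let `Y` be the set of the `x ∈ X` with this property.  `sep_mean`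
(`H76/CR/Sep.lean`, window length `N^(1-7θ)`, which is `≥ 1` and `≤ M`; `M := 2M` there) and
`coef_sq`:
`card Y (N^(-μ)/(2 log N + 1))^2 ≤ C (N^(1-7θ) + 2M) (1 + log(2M)) 2 a^2 log(2M)^2 / M ≤
C a^2 6 (1 + log(2N))^3`.
So `card Y ≤ C' (1 + log N)^5 N^(2μ)`; there are at most `(a log N + 1) (2 log N + 1)` pairs.
About 150 lines (compare `H76/CR/RareSep.lean`, `H52/Unc/RareSepU.lean`).
-/

set_option autoImplicit false

open Complex

namespace Pool.Agent.H76.SV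

open Pool.Agent.H76.CR Pool.Agent.H52.Unc

private theorem smv_rpow {N : ℝ} (hN : 0 < N) (μ : ℝ) : (N ^ (-μ)) ^ 2 * N ^ (2 * μ) = 1 := by
  rw [← Real.rpow_natCast, ← Real.rpow_mul hN.le, ← Real.rpow_add hN]
  have : -μ * ((2 : ℕ) : ℝ) + 2 * μ = 0 := by push_cast; ring
  rw [this, Real.rpow_zero]

theorem sepMV {A : ℝ} (hA : 0 < A) : ∃ C : ℝ, 1 ≤ C ∧
    ∀ (θ a μ N T : ℝ) (X : Finset ℝ), 0 < θ → θ ≤ 1 / 8 → 0 < a → a ≤ A → 2 ≤ N →
    (∀ x ∈ X, T ≤ x ∧ x ≤ T + N ^ (1 - 7 * θ)) →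
    (∀ x ∈ X, ∀ y ∈ X, x ≠ y → 1 ≤ |x - y|) →
    (∀ x ∈ X, ∃ k : ℕ, (k : ℝ) ≤ a * Real.log N ∧
      N ^ (-μ) ≤ a ^ (k + 1) * ‖tPoly θ a k N x‖) →
    (X.card : ℝ) ≤ C * (1 + Real.log N) ^ 8 * N ^ (2 * μ) := by
  classical
  obtain ⟨C, hC0, hC⟩ := sep_mean
  refine ⟨max 1 (96 * C * A ^ 2 * (1 + A)), le_max_left _ _, ?_⟩
  intro θ a μ N T X hθ hθ1 ha haA hN hX hsep hbig
  have hNpos : 0 < N := by linarith
  set L := Real.log N with hL
  have hL0 : 0 ≤ L := Real.log_nonneg (by linarith)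
  set Y := N ^ (1 - 7 * θ) with hY
  have hY1 : 1 ≤ Y := Real.one_le_rpow (by linarith) (by linarith)
  have hfl : (⌊N⌋₊ : ℝ) ≤ N := Nat.floor_le hNpos.le
  have hce1 : 1 ≤ ⌈Y⌉₊ := Nat.one_le_ceil_iff.2 (by linarith)
  set Mj : ℕ → ℕ := fun j => 2 ^ j * ⌈Y⌉₊ with hMj
  set P : ℕ → ℕ → ℝ → Prop := fun k j x => Mj j ≤ ⌊N⌋₊ ∧
    N ^ (-μ) ≤ (2 * L + 1) * (a ^ (k + 1) * ‖bl a k (Mj j) (min (2 * Mj j - 1) ⌊N⌋₊) x‖) with hP
  set Z : ℕ × ℕ → Finset ℝ := fun q => X.filter (fun x => P q.1 q.2 x) with hZ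
  have hsub : X ⊆ ((Finset.range (⌊a * L⌋₊ + 1)) ×ˢ (Finset.range (⌊2 * L⌋₊ + 1))).biUnion Z := by
    intro x hx
    obtain ⟨k, hk, hk2⟩ := hbig x hx
    have hne : tPoly θ a k N x ≠ 0 := by
      intro h0
      rw [h0, norm_zero, mul_zero] at hk2
      exact absurd hk2 (not_le.2 (Real.rpow_pos_of_pos hNpos _))
    obtain ⟨j, hj1, hj2⟩ := block (by linarith : (1:ℝ) ≤ N) hne
    rw [Finset.mem_biUnion]
    refine ⟨(k, j), ?_, ?_⟩
    · rw [Finset.mem_product]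
      refine ⟨Finset.mem_range.2 (Nat.lt_succ_of_le (Nat.le_floor hk)),
        Finset.mem_range.2 (Nat.lt_succ_of_le (Nat.le_floor ?_))⟩
      have h1 : 2 ^ j ≤ ⌊N⌋₊ := le_trans (Nat.le_mul_of_pos_right _ hce1) hj1
      have h2 : (2 : ℝ) ^ j ≤ N := le_trans (by exact_mod_cast h1) hfl
      have h3 : (j : ℝ) * Real.log 2 ≤ L := by
        have := Real.log_le_log (by positivity) h2
        rwa [Real.log_pow] at this
      have h4 := Real.log_two_gt_d9
      have h5 : (0:ℝ) ≤ j := Nat.cast_nonneg j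
      show (j : ℝ) ≤ 2 * L
      nlinarith
    · refine Finset.mem_filter.2 ⟨hx, hj1, hk2.trans ?_⟩
      calc a ^ (k + 1) * ‖tPoly θ a k N x‖ ≤ a ^ (k + 1) * ((2 * L + 1) *
            ‖bl a k (Mj j) (min (2 * Mj j - 1) ⌊N⌋₊) x‖) :=
            mul_le_mul_of_nonneg_left hj2 (by positivity)
        _ = _ := by ring
  have hone : ∀ q : ℕ × ℕ, ((Z q).card : ℝ) ≤ 48 * C * a ^ 2 * (1 + L) ^ 5 * N ^ (2 * μ) := by
    rintro ⟨k, j⟩
    by_cases hMN : Mj j ≤ ⌊N⌋₊
    · set M := Mj j with hM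
      set B := min (2 * M - 1) ⌊N⌋₊ with hB
      have hM1 : 1 ≤ M := Nat.one_le_iff_ne_zero.2 (by
        rw [hM]; exact Nat.mul_ne_zero (by positivity) (by omega))
      have hMR : (1 : ℝ) ≤ M := by exact_mod_cast hM1
      have hB2 : B ≤ 2 * M := (min_le_left _ _).trans (by omega)
      have h := hC T Y (2 * M) (Finset.Icc M B)
        (fun n => ((a ^ (k + 1) * dco a k n : ℝ) : ℂ)) (Z (k, j)) hY1 (by omega)
        (fun n hn => ⟨hM1.trans (Finset.mem_Icc.1 hn).1, (Finset.mem_Icc.1 hn).2.trans hB2⟩)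
        (fun x hx => hX x (Finset.mem_filter.1 hx).1)
        (fun x hx y hy hxy => hsep x (Finset.mem_filter.1 hx).1 y (Finset.mem_filter.1 hy).1 hxy)
      have hlow : ((Z (k, j)).card : ℝ) * (N ^ (-μ)) ^ 2 ≤ (2 * L + 1) ^ 2 *
          ∑ x ∈ Z (k, j), ‖∑ n ∈ Finset.Icc M B,
            ((a ^ (k + 1) * dco a k n : ℝ) : ℂ) * (n : ℂ) ^ (-(x * I))‖ ^ 2 := by
        rw [← nsmul_eq_mul, Finset.mul_sum]
        refine Finset.card_nsmul_le_sum _ _ _ fun x hx => ?_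
        have h1 := (Finset.mem_filter.1 hx).2.2
        have h2 : ∑ n ∈ Finset.Icc M B,
            ((a ^ (k + 1) * dco a k n : ℝ) : ℂ) * (n : ℂ) ^ (-(x * I)) =
            ((a ^ (k + 1) : ℝ) : ℂ) * bl a k M B x := by
          unfold bl
          rw [Finset.mul_sum]
          refine Finset.sum_congr rfl fun n _ => ?_
          push_cast
          ring
        rw [h2, norm_mul, Complex.norm_real, Real.norm_of_nonneg (by positivity), ← mul_pow]
        exact pow_le_pow_left₀ (Real.rpow_nonneg hNpos.le _) h1 2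
      have hup : ∑ n ∈ Finset.Icc M B, ‖((a ^ (k + 1) * dco a k n : ℝ) : ℂ)‖ ^ 2 ≤
          2 * a ^ 2 * Real.log (2 * M) ^ 2 / M := by
        refine le_trans (le_of_eq ?_) (coef_sq ha k M B hM1 hB2)
        refine Finset.sum_congr rfl fun n _ => ?_
        rw [Complex.norm_real, Real.norm_of_nonneg (mul_nonneg (by positivity) (dco_nonneg a k n))]
      have hYM : Y ≤ M := by
        calc Y ≤ (⌈Y⌉₊ : ℝ) := Nat.le_ceil _
          _ ≤ M := by
            have : ⌈Y⌉₊ ≤ M := by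
              rw [hM]; exact Nat.le_mul_of_pos_left _ (by positivity)
            exact_mod_cast this
      have hlog0 : 0 ≤ Real.log (2 * M) := Real.log_nonneg (by linarith)
      have hlog1 : Real.log (2 * M) ≤ 1 + L := by
        have h1 : (M : ℝ) ≤ N := le_trans (by exact_mod_cast hMN) hfl
        have h2 : Real.log (2 * M) ≤ Real.log (2 * N) :=
          Real.log_le_log (by positivity) (by linarith)
        rw [Real.log_mul (by norm_num) hNpos.ne'] at h2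
        have := Real.log_two_lt_d9
        linarith
      have hall : C * (Y + ((2 * M : ℕ) : ℝ)) * (1 + Real.log ((2 * M : ℕ) : ℝ)) *
          ∑ n ∈ Finset.Icc M B, ‖((a ^ (k + 1) * dco a k n : ℝ) : ℂ)‖ ^ 2 ≤
          12 * C * a ^ 2 * (1 + L) ^ 3 := by
        have hc2 : ((2 * M : ℕ) : ℝ) = 2 * M := by push_cast; rfl
        rw [hc2]
        calc C * (Y + 2 * M) * (1 + Real.log (2 * M)) *
            ∑ n ∈ Finset.Icc M B, ‖((a ^ (k + 1) * dco a k n : ℝ) : ℂ)‖ ^ 2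
            ≤ C * (Y + 2 * M) * (1 + Real.log (2 * M)) * (2 * a ^ 2 * Real.log (2 * M) ^ 2 / M) := by
              apply mul_le_mul_of_nonneg_left hup
              have : 0 ≤ Y := by linarith
              positivity
          _ ≤ C * (M + 2 * M) * (1 + (1 + L)) * (2 * a ^ 2 * (1 + L) ^ 2 / M) := by
              have : 0 ≤ Y := by linarith
              gcongr
          _ = 6 * C * a ^ 2 * (2 + L) * (1 + L) ^ 2 := by
              field_simp
              ring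
          _ ≤ 6 * C * a ^ 2 * (2 * (1 + L)) * (1 + L) ^ 2 := by
              have : 2 + L ≤ 2 * (1 + L) := by linarith
              gcongr
          _ = 12 * C * a ^ 2 * (1 + L) ^ 3 := by ring
      have hfin : ((Z (k, j)).card : ℝ) * (N ^ (-μ)) ^ 2 ≤ 48 * C * a ^ 2 * (1 + L) ^ 5 := by
        calc ((Z (k, j)).card : ℝ) * (N ^ (-μ)) ^ 2
            ≤ (2 * L + 1) ^ 2 * (12 * C * a ^ 2 * (1 + L) ^ 3) :=
              hlow.trans (mul_le_mul_of_nonneg_left (h.trans hall) (by positivity))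
          _ ≤ (2 * (1 + L)) ^ 2 * (12 * C * a ^ 2 * (1 + L) ^ 3) := by
              gcongr
              linarith
          _ = _ := by ring
      calc ((Z (k, j)).card : ℝ) = ((Z (k, j)).card : ℝ) * (N ^ (-μ)) ^ 2 * N ^ (2 * μ) := by
            rw [mul_assoc, smv_rpow hNpos, mul_one]
        _ ≤ _ := mul_le_mul_of_nonneg_right hfin (Real.rpow_nonneg hNpos.le _)
    · have : Z (k, j) = ∅ := by
        apply Finset.filter_eq_empty_iff.2
        intro x _ hx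
        exact hMN hx.1
      rw [this]
      simp only [Finset.card_empty, Nat.cast_zero]
      positivity
  have hcard : (X.card : ℝ) ≤ ∑ q ∈ (Finset.range (⌊a * L⌋₊ + 1)) ×ˢ (Finset.range (⌊2 * L⌋₊ + 1)),
      ((Z q).card : ℝ) := by
    have := (Finset.card_le_card hsub).trans Finset.card_biUnion_le
    exact_mod_cast this
  have hfa : ((⌊a * L⌋₊ : ℝ) + 1) ≤ (1 + A) * (1 + L) := by
    have h1 := Nat.floor_le (mul_nonneg ha.le hL0)
    have h2 : a * L ≤ A * L := mul_le_mul_of_nonneg_right haA hL0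
    nlinarith
  have hf2 : ((⌊2 * L⌋₊ : ℝ) + 1) ≤ 2 * (1 + L) := by
    have h1 := Nat.floor_le (by positivity : 0 ≤ 2 * L)
    linarith
  calc (X.card : ℝ) ≤ _ := hcard
    _ ≤ ∑ q ∈ (Finset.range (⌊a * L⌋₊ + 1)) ×ˢ (Finset.range (⌊2 * L⌋₊ + 1)),
        48 * C * a ^ 2 * (1 + L) ^ 5 * N ^ (2 * μ) := Finset.sum_le_sum fun q _ => hone q
    _ = ((⌊a * L⌋₊ : ℝ) + 1) * ((⌊2 * L⌋₊ : ℝ) + 1) *
        (48 * C * a ^ 2 * (1 + L) ^ 5 * N ^ (2 * μ)) := by
        rw [Finset.sum_const, Finset.card_product, Finset.card_range, Finset.card_range,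
          nsmul_eq_mul]
        push_cast
        ring
    _ ≤ ((1 + A) * (1 + L)) * (2 * (1 + L)) *
        (48 * C * A ^ 2 * (1 + L) ^ 5 * N ^ (2 * μ)) := by
        have hNμ : 0 ≤ N ^ (2 * μ) := Real.rpow_nonneg hNpos.le _
        gcongr
    _ = (96 * C * A ^ 2 * (1 + A)) * (1 + L) ^ 7 * N ^ (2 * μ) := by ring
    _ ≤ max 1 (96 * C * A ^ 2 * (1 + A)) * (1 + L) ^ 8 * N ^ (2 * μ) := by
        have hNμ : 0 ≤ N ^ (2 * μ) := Real.rpow_nonneg hNpos.le _
        apply mul_le_mul_of_nonneg_right _ hNμ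
        apply mul_le_mul (le_max_right _ _) (pow_le_pow_right₀ (by linarith) (by norm_num))
          (by positivity) (by positivity)

end Pool.Agent.H76.SV
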